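import Pool.Agent.GSE2.Line

/-!
# GSE2: a hermitian pencil with a common isotropic vector, the exceptional case

Continues `Line`. `line_alt`: if `det (x Q₀ + y Q₁) ≠ 0` for all `(x, y) ≠ 0` over `K`, and the
determinant `dt H u₀ u` is zero, then the class of `u` modulo `L^*` is rational over the algebraic
closure of `K(γ)` in `Ω`, for an element `γ` of `Ω`.

Proof: `Q₁ + m Q₀` vanishes on the line of `u₀` and `u` for some `m` in `Ω`; so its determinant is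
zero, `m` is algebraic over `K`, and the orthogonal complement of `u₀` for this form is the plane
which contains `u`.
-/

set_option autoImplicit false

noncomputable section

namespace Pool.Agent.GSE2

open Matrix Pool.Agent.GSH

variable {K Ω : Type} [Field K] [Field Ω] [Algebra K Ω]

/-- Normalisation of the class of `u` modulo `L^*` and modulo the line of `w`. -/
theorem normal {S : Matrix (Fin 6) (Fin 6) K} {d : K} (hS : S * S = d • 1) (hd : NSq Ω d)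
    {w : Fin 6 → K} (hw : w ≠ 0) {u : Fin 6 → Ω}
    (hu : ∀ x y : Ω, u ≠ x • vK w + y • (mK S *ᵥ vK w)) :
    ∃ (t t₁ t₂ : Fin 6) (p : Fin 6 → Ω) (x y α β α' β' : Ω),
      (∀ T : IntermediateField K Ω, p t₁ ∈ T → p t₂ ∈ T → ∀ m, p m ∈ T) ∧
      (∀ g : Fin 6 → Ω, g ⬝ᵥ p = g t + g t₁ * p t₁ + g t₂ * p t₂) ∧
      p + x • vK w + y • (mK S *ᵥ vK w) = sm S α' β' u ∧
      u = sm S α β (p + x • vK w + y • (mK S *ᵥ vK w)) ∧
      ∀ g : Fin 6 → Ω, g ⬝ᵥ vK w = 0 → g ⬝ᵥ (mK S *ᵥ vK w) = 0 → g ⬝ᵥ u = 0 →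
        g ⬝ᵥ (mK S *ᵥ u) = 0 → g t₁ = 0 → g t₂ = 0 → g = 0 := by
  have hw0 : (vK w : Fin 6 → Ω) ≠ 0 := by
    intro h
    apply hw
    funext i
    exact (map_eq_zero (algebraMap K Ω)).1 (congrFun h i)
  obtain ⟨i, k, hΔ⟩ := exists_minor hS hd hw0
  set w₁ : Fin 6 → Ω := vK w with hw₁
  set w₂ : Fin 6 → Ω := mK S *ᵥ vK w with hw₂
  set Δ : Ω := w₁ i * w₂ k - w₁ k * w₂ i with hΔd
  set X : (Fin 6 → Ω) → Ω := fun v => (v i * w₂ k - v k * w₂ i) / Δ with hX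
  set Y : (Fin 6 → Ω) → Ω := fun v => (w₁ i * v k - w₁ k * v i) / Δ with hY
  set s : (Fin 6 → Ω) → Fin 6 → Ω := fun v => v - X v • w₁ - Y v • w₂ with hs
  have hsi : ∀ v, s v i = 0 := by
    intro v
    simp only [hs, hX, hY, Pi.sub_apply, Pi.smul_apply, smul_eq_mul]
    field_simp
    rw [hΔd]
    ring
  have hsk : ∀ v, s v k = 0 := by
    intro v
    simp only [hs, hX, hY, Pi.sub_apply, Pi.smul_apply, smul_eq_mul]
    field_simp
    rw [hΔd]
    ring
  have hadd : ∀ (v v' : Fin 6 → Ω) (α β : Ω), s (α • v + β • v') = α • s v + β • s v' := by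
    intro v v' α β
    funext m
    simp only [hs, hX, hY, Pi.sub_apply, Pi.smul_apply, smul_eq_mul, Pi.add_apply]
    field_simp
    ring
  have hv : ∀ v, v = s v + X v • w₁ + Y v • w₂ := by
    intro v
    simp only [hs]
    abel
  obtain ⟨l, hl⟩ : ∃ l, s u l ≠ 0 := by
    by_contra hcon
    push Not at hcon
    refine hu (X u) (Y u) ?_
    conv_lhs => rw [hv u]
    rw [show s u = 0 from funext hcon, zero_add]
  have hik : i ≠ k := by
    rintro rfl
    exact hΔ (sub_self _)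
  have hli : l ≠ i := by
    rintro rfl
    exact hl (hsi u)
  have hlk : l ≠ k := by
    rintro rfl
    exact hl (hsk u)
  set α := s (mK S *ᵥ u) l with hα
  set β := -(s u l) with hβ
  have hβ0 : β ≠ 0 := neg_ne_zero.2 hl
  have hN := hd.norm (α := α) (β := β) (Or.inr hβ0)
  set u' := sm S α β u with hu'
  have hsl : s u' l = 0 := by
    rw [hu']
    unfold sm
    rw [hadd, Pi.add_apply, Pi.smul_apply, Pi.smul_apply, smul_eq_mul, smul_eq_mul, hα, hβ]
    ring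
  -- `u` is a multiple of `u'`
  have hback : ∀ v c, c ≠ 0 → v = c • u' →
      u = sm S (α / (c * (α ^ 2 - algebraMap K Ω d * β ^ 2)))
        (-β / (c * (α ^ 2 - algebraMap K Ω d * β ^ 2))) v := by
    intro v c hc hvd
    have h1 : v = sm S (c * α) (c * β) u := by
      rw [hvd, hu', ← sm_scale]
    rw [h1, sm_sm hS]
    have h2 : α / (c * (α ^ 2 - algebraMap K Ω d * β ^ 2)) * (c * α) +
        algebraMap K Ω d * (-β / (c * (α ^ 2 - algebraMap K Ω d * β ^ 2)) * (c * β)) = 1 := by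
      field_simp
      ring
    have h3 : α / (c * (α ^ 2 - algebraMap K Ω d * β ^ 2)) * (c * β) +
        -β / (c * (α ^ 2 - algebraMap K Ω d * β ^ 2)) * (c * α) = 0 := by
      field_simp
      ring
    rw [h2, h3]
    unfold sm
    rw [one_smul, zero_smul, add_zero]
  obtain ⟨e, he, hei⟩ := exists_three' hik hli hlk
  obtain ⟨t, ht⟩ : ∃ t, s u' (e t) ≠ 0 := by
    by_contra hcon
    push Not at hcon
    have h0 : s u' = 0 := by
      funext m
      rcases he m with rfl | rfl | rfl | ⟨t, rfl⟩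
      · exact hsi u'
      · exact hsk u'
      · exact hsl
      · exact hcon t
    have h1 := hv u'
    rw [h0, zero_add] at h1
    have h2 := hback u' 1 one_ne_zero (one_smul _ _).symm
    have h3 : ∀ a b : Ω, ∃ x y : Ω, sm S a b u' = x • w₁ + y • w₂ := by
      intro a b
      have h4 : u' = sm S (X u') (Y u') w₁ := by
        conv_lhs => rw [h1]
        rfl
      rw [h4, sm_sm hS]
      exact ⟨_, _, rfl⟩
    obtain ⟨x, y, h4⟩ := h3 (α / (1 * (α ^ 2 - algebraMap K Ω d * β ^ 2)))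
      (-β / (1 * (α ^ 2 - algebraMap K Ω d * β ^ 2)))
    exact hu x y (h2.trans h4)
  set c := (s u' (e t))⁻¹ with hc
  have hc0 : c ≠ 0 := inv_ne_zero ht
  obtain ⟨t₁, t₂, htt, ht1, ht2, ht12⟩ := exists_two' t
  set p : Fin 6 → Ω := c • s u' with hp
  have hpi : p i = 0 := by rw [hp, Pi.smul_apply, hsi, smul_zero]
  have hpk : p k = 0 := by rw [hp, Pi.smul_apply, hsk, smul_zero]
  have hpl : p l = 0 := by rw [hp, Pi.smul_apply, hsl, smul_zero]
  have hpt : p (e t) = 1 := by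
    rw [hp, Pi.smul_apply, smul_eq_mul, hc, inv_mul_cancel₀ ht]
  have hvp : p + (c * X u') • w₁ + (c * Y u') • w₂ = c • u' := by
    conv_rhs => rw [hv u']
    rw [hp, smul_add, smul_add, smul_smul, smul_smul]
  have hsum : ∀ g : Fin 6 → Ω, g ⬝ᵥ p = g (e t) + g (e t₁) * p (e t₁) + g (e t₂) * p (e t₂) := by
    intro g
    have hset : (Finset.univ : Finset (Fin 6)) = {i, k, l, e t, e t₁, e t₂} := by
      ext m
      simp only [Finset.mem_univ, Finset.mem_insert, Finset.mem_singleton, true_iff]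
      rcases he m with h | h | h | ⟨t', h⟩
      · exact Or.inl h
      · exact Or.inr (Or.inl h)
      · exact Or.inr (Or.inr (Or.inl h))
      · rcases htt t' with rfl | rfl | rfl
        · exact Or.inr (Or.inr (Or.inr (Or.inl h)))
        · exact Or.inr (Or.inr (Or.inr (Or.inr (Or.inl h))))
        · exact Or.inr (Or.inr (Or.inr (Or.inr (Or.inr h))))
    have h1 : ∀ t', i ≠ e t' ∧ k ≠ e t' ∧ l ≠ e t' := fun t' => hei.2 t'
    have hinj := hei.1
    have e1 : e t ≠ e t₁ := fun h => ht1 (hinj h)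
    have e2 : e t ≠ e t₂ := fun h => ht2 (hinj h)
    have e3 : e t₁ ≠ e t₂ := fun h => ht12 (hinj h)
    rw [dotProduct, hset, Finset.sum_insert, Finset.sum_insert, Finset.sum_insert,
      Finset.sum_insert, Finset.sum_insert, Finset.sum_singleton, hpi, hpk, hpl, hpt]
    · ring
    · simp only [Finset.mem_singleton]
      exact e3
    · simp only [Finset.mem_insert, Finset.mem_singleton, not_or]
      exact ⟨e1, e2⟩
    · simp only [Finset.mem_insert, Finset.mem_singleton, not_or]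
      exact ⟨(h1 t).2.2, (h1 t₁).2.2, (h1 t₂).2.2⟩
    · simp only [Finset.mem_insert, Finset.mem_singleton, not_or]
      exact ⟨hlk.symm, (h1 t).2.1, (h1 t₁).2.1, (h1 t₂).2.1⟩
    · simp only [Finset.mem_insert, Finset.mem_singleton, not_or]
      exact ⟨hik, hli.symm, (h1 t).1, (h1 t₁).1, (h1 t₂).1⟩
  refine ⟨e t, e t₁, e t₂, p, c * X u', c * Y u', α / (c * (α ^ 2 - algebraMap K Ω d * β ^ 2)),
    -β / (c * (α ^ 2 - algebraMap K Ω d * β ^ 2)), c * α, c * β, ?_, hsum, ?_, ?_, ?_⟩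
  · intro T hT1 hT2 m
    rcases he m with rfl | rfl | rfl | ⟨t', rfl⟩
    · rw [hpi]
      exact zero_mem _
    · rw [hpk]
      exact zero_mem _
    · rw [hpl]
      exact zero_mem _
    · rcases htt t' with rfl | rfl | rfl
      · rw [hpt]
        exact one_mem _
      · exact hT1
      · exact hT2
  · rw [hvp, hu', ← sm_scale]
  · rw [hvp]
    exact hback _ c hc0 rfl
  · intro g hg1 hg2 hgu hgSu hgt1 hgt2
    -- `g` kills `p`
    have hgs : ∀ v, g ⬝ᵥ s v = g ⬝ᵥ v := by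
      intro v
      conv_rhs => rw [hv v]
      rw [dotProduct_add, dotProduct_add, dotProduct_smul, dotProduct_smul, hg1, hg2, smul_zero,
        smul_zero, add_zero, add_zero]
    have hgp : g ⬝ᵥ p = 0 := by
      rw [hp, dotProduct_smul, hgs, hu']
      unfold sm
      rw [dotProduct_add, dotProduct_smul, dotProduct_smul, hgu, hgSu, smul_zero, smul_zero,
        add_zero, smul_zero]
    have hgt : g (e t) = 0 := by
      rw [hsum g, hgt1, hgt2, zero_mul, zero_mul, add_zero, add_zero] at hgp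
      exact hgp
    have hg0 : ∀ t', g (e t') = 0 := by
      intro t'
      rcases htt t' with rfl | rfl | rfl
      · exact hgt
      · exact hgt1
      · exact hgt2
    -- so `g v = g_l s(v)_l`
    have hgv : ∀ v, g ⬝ᵥ v = g l * s v l := by
      intro v
      rw [← hgs, dotProduct]
      refine Finset.sum_eq_single l (fun m _ hm => ?_) fun h => absurd (Finset.mem_univ l) h
      rcases he m with rfl | rfl | rfl | ⟨t', rfl⟩
      · rw [hsi, mul_zero]
      · rw [hsk, mul_zero]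
      · exact absurd rfl hm
      · rw [hg0, zero_mul]
    have hgl : g l = 0 := by
      have h1 := hgv u
      rw [hgu] at h1
      exact (mul_eq_zero.1 h1.symm).resolve_right hl
    funext m
    have h1 := hgv (Pi.single m 1)
    rw [hgl, zero_mul, dotProduct_single, mul_one] at h1
    exact h1
where
  exists_three' {i k l : Fin 6} (h1 : i ≠ k) (h2 : l ≠ i) (h3 : l ≠ k) :
      ∃ e : Fin 3 → Fin 6, (∀ m, m = i ∨ m = k ∨ m = l ∨ ∃ t, m = e t) ∧
        Function.Injective e ∧ ∀ t, i ≠ e t ∧ k ≠ e t ∧ l ≠ e t := by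
    revert i k l
    decide +kernel
  exists_two' (t : Fin 3) : ∃ t₁ t₂ : Fin 3, (∀ m, m = t ∨ m = t₁ ∨ m = t₂) ∧ t ≠ t₁ ∧
      t ≠ t₂ ∧ t₁ ≠ t₂ := by
    revert t
    decide

/-- A form in six variables which vanishes on a subspace of dimension four is degenerate. -/
theorem iso_det {F : Type} [Field F] {M : Matrix (Fin 6) (Fin 6) F} (e : Fin 4 → Fin 6 → F)
    (he : LinearIndependent F e) (h : ∀ i j, e i ⬝ᵥ (M *ᵥ e j) = 0) : M.det = 0 := by
  by_contra hdet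
  set P : Matrix (Fin 4) (Fin 6) F := Matrix.of e with hP
  have h1 : P * (M * Pᵀ) = 0 := by
    ext i j
    rw [← Matrix.mul_assoc, Matrix.mul_apply_eq_vecMul, Matrix.vecMul_transpose,
      Matrix.zero_apply]
    have h2 : (P * M) i = e i ᵥ* M := by
      rw [Matrix.mul_apply_eq_vecMul]
      rfl
    rw [h2]
    change e j ⬝ᵥ (e i ᵥ* M) = 0
    rw [dotProduct_comm, ← dotProduct_mulVec]
    exact h i j
  have hr : P.rank = 4 := by
    have h2 : LinearIndependent F P.row := he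
    rw [h2.rank_matrix, Fintype.card_fin]
  have hu : IsUnit M.det := isUnit_iff_ne_zero.2 hdet
  have h3 : (M * Pᵀ).rank = 4 := by
    rw [Matrix.rank_mul_eq_right_of_isUnit_det M Pᵀ hu, Matrix.rank_transpose, hr]
  have h4 := Matrix.rank_add_rank_le_card_of_mul_eq_zero h1
  rw [hr, h3, Fintype.card_fin] at h4
  omega

/-- `u₀`, `S u₀`, `u`, `S u` are independent if `u` is not on the line of `u₀`. -/
theorem indep_four {S : Matrix (Fin 6) (Fin 6) K} {d : K} (hS : S * S = d • 1) (hd : NSq Ω d)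
    {w : Fin 6 → K} (hw : w ≠ 0) {u : Fin 6 → Ω}
    (hu : ∀ x y : Ω, u ≠ x • vK w + y • (mK S *ᵥ vK w)) :
    LinearIndependent Ω ![vK w, mK S *ᵥ vK w, u, mK S *ᵥ u] := by
  have hw0 : (vK w : Fin 6 → Ω) ≠ 0 := by
    intro h
    apply hw
    funext i
    exact (map_eq_zero (algebraMap K Ω)).1 (congrFun h i)
  rw [Fintype.linearIndependent_iff]
  intro g hg
  rw [Fin.sum_univ_four] at hg
  have hg' : sm S (g 0) (g 1) (vK w) + sm S (g 2) (g 3) u = 0 := by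
    rw [← hg]
    unfold sm
    simp only [Matrix.cons_val_zero, Matrix.cons_val_one, Matrix.cons_val]
    abel
  have h23 : g 2 = 0 ∧ g 3 = 0 := by
    by_contra hcon
    have hab : g 2 ≠ 0 ∨ g 3 ≠ 0 := by
      by_contra h
      push Not at h
      exact hcon h
    have hN := hd.norm hab
    set N := g 2 ^ 2 - algebraMap K Ω d * g 3 ^ 2 with hNd
    have h1 : sm S (g 2) (g 3) u = -sm S (g 0) (g 1) (vK w) := eq_neg_of_add_eq_zero_right hg'
    have h2 : sm S (g 2) (-g 3) (sm S (g 2) (g 3) u) = N • u := by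
      rw [sm_sm hS]
      have h3 : g 2 * g 3 + -g 3 * g 2 = 0 := by ring
      have h4 : g 2 * g 2 + algebraMap K Ω d * (-g 3 * g 3) = N := by
        rw [hNd]
        ring
      rw [h3, h4]
      unfold sm
      rw [zero_smul, add_zero]
    have h3 : sm S (g 2) (-g 3) (-sm S (g 0) (g 1) (vK w)) =
        -sm S (g 2) (-g 3) (sm S (g 0) (g 1) (vK w)) := by
      unfold sm
      rw [mulVec_neg, smul_neg, smul_neg]
      abel
    rw [h1, h3, sm_sm hS] at h2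
    set a := g 2 * g 0 + algebraMap K Ω d * (-g 3 * g 1) with ha
    set b := g 2 * g 1 + -g 3 * g 0 with hb
    refine hu (-a / N) (-b / N) ?_
    have h4 : u = N⁻¹ • (N • u) := by rw [smul_smul, inv_mul_cancel₀ hN, one_smul]
    rw [h4, ← h2]
    unfold sm
    funext m
    simp only [Pi.smul_apply, Pi.neg_apply, Pi.add_apply, smul_eq_mul]
    field_simp
    ring
  have h01 : g 0 = 0 ∧ g 1 = 0 := by
    by_contra hcon
    have hab : g 0 ≠ 0 ∨ g 1 ≠ 0 := by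
      by_contra h
      push Not at h
      exact hcon h
    have hN := hd.norm hab
    have h1 : sm S (g 0) (g 1) (vK w : Fin 6 → Ω) = 0 := by
      have h2 : sm S (g 2) (g 3) u = 0 := by
        rw [h23.1, h23.2]
        unfold sm
        rw [zero_smul, zero_smul, add_zero]
      rw [h2, add_zero] at hg'
      exact hg'
    have h2 : sm S (g 0) (-g 1) (sm S (g 0) (g 1) (vK w : Fin 6 → Ω)) =
        (g 0 ^ 2 - algebraMap K Ω d * g 1 ^ 2) • vK w := by
      rw [sm_sm hS]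
      have h3 : g 0 * g 1 + -g 1 * g 0 = 0 := by ring
      have h4 : g 0 * g 0 + algebraMap K Ω d * (-g 1 * g 1) =
          g 0 ^ 2 - algebraMap K Ω d * g 1 ^ 2 := by ring
      rw [h3, h4]
      unfold sm
      rw [zero_smul, add_zero]
    rw [h1] at h2
    have h3 : sm S (g 0) (-g 1) (0 : Fin 6 → Ω) = 0 := by
      unfold sm
      rw [mulVec_zero, smul_zero, smul_zero, add_zero]
    rw [h3] at h2
    exact hw0 ((smul_eq_zero.1 h2.symm).resolve_left hN)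
  intro i
  fin_cases i
  · exact h01.1
  · exact h01.2
  · exact h23.1
  · exact h23.2

/-- the relative algebraic closure of `K(γ)` in `Ω` -/
def ac (K : Type) {Ω : Type} [Field K] [Field Ω] [Algebra K Ω] (γ : Ω) : IntermediateField K Ω :=
  (algebraicClosure (IntermediateField.adjoin K {γ}) Ω).restrictScalars K

theorem mem_ac_self (γ : Ω) : γ ∈ ac K γ := by
  change γ ∈ algebraicClosure (IntermediateField.adjoin K {γ}) Ω
  rw [mem_algebraicClosure_iff]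
  have h : γ ∈ IntermediateField.adjoin K {γ} := IntermediateField.mem_adjoin_simple_self K γ
  exact isAlgebraic_algebraMap (⟨γ, h⟩ : IntermediateField.adjoin K {γ})

theorem mem_ac_of_alg (γ : Ω) {z : Ω} (hz : IsAlgebraic K z) : z ∈ ac K γ := by
  change z ∈ algebraicClosure (IntermediateField.adjoin K {γ}) Ω
  rw [mem_algebraicClosure_iff]
  exact hz.extendScalars (algebraMap K (IntermediateField.adjoin K {γ})).injective

variable {H : Pen K} {u₀ : Fin 6 → K}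

/-- a hermitian form vanishes on the line of an isotropic vector -/
theorem her_zero [CharZero K] (hH : H.IsPen) (j : Fin 2) {u : Fin 6 → Ω}
    (hu : bl (H.Q j) u u = 0) : bl (H.Q j) u (mK H.S *ᵥ u) = 0 ∧
      bl (H.Q j) (mK H.S *ᵥ u) u = 0 ∧ bl (H.Q j) (mK H.S *ᵥ u) (mK H.S *ᵥ u) = 0 := by
  have : CharZero Ω := charZero_of_injective_algebraMap (algebraMap K Ω).injective
  have h1 : ∀ v : Fin 6 → Ω, bl (H.Q j) (mK H.S *ᵥ u) v = -bl (H.Q j) u (mK H.S *ᵥ v) := by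
    intro v
    rw [bl_left, bl_right, eq_neg_of_add_eq_zero_left (hH.herQ j)]
    have h2 := bl_smul_mat (Ω := Ω) (-1 : K) (H.Q j * H.S) u v
    rw [neg_one_smul, map_neg, map_one, neg_one_mul] at h2
    exact h2
  have h2 : bl (H.Q j) (mK H.S *ᵥ u) u = bl (H.Q j) u (mK H.S *ᵥ u) :=
    bl_comm (hH.symQ j) _ _
  have h3 : bl (H.Q j) u (mK H.S *ᵥ u) = 0 := by
    have h4 := h1 u
    rw [h2] at h4
    have h5 : (2 : Ω) * bl (H.Q j) u (mK H.S *ᵥ u) = 0 := by linear_combination h4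
    exact (mul_eq_zero.1 h5).resolve_left two_ne_zero
  refine ⟨h3, by rw [h2, h3], ?_⟩
  rw [h1, mK_sq hH.sq, bl_smul_right, hu, mul_zero, neg_zero]

/-- the combination `x Q₀ + y Q₁` over `Ω` -/
def cb (H : Pen K) (x y : Ω) : Matrix (Fin 6) (Fin 6) Ω := x • mK (H.Q 0) + y • mK (H.Q 1)

theorem cb_dot (x y : Ω) (u v : Fin 6 → Ω) :
    u ⬝ᵥ (cb H x y *ᵥ v) = x * bl (H.Q 0) u v + y * bl (H.Q 1) u v := by
  unfold cb bl
  rw [add_mulVec, smul_mulVec, smul_mulVec, dotProduct_add, dotProduct_smul, dotProduct_smul,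
    smul_eq_mul, smul_eq_mul]

/-- A form of the pencil which is zero on `u₀` and `u` is degenerate. -/
theorem cb_det [CharZero K] (hH : H.IsPen) (hd : NSq Ω H.d) (hu₀ : u₀ ≠ 0)
    (h₀ : ∀ j, bl (H.Q j) (vK u₀ : Fin 6 → Ω) (vK u₀) = 0) {u : Fin 6 → Ω}
    (hu : ∀ j, bl (H.Q j) u u = 0)
    (hun : ∀ x y : Ω, u ≠ x • vK u₀ + y • (mK H.S *ᵥ vK u₀)) {x y : Ω}
    (h1 : x * hB H u₀ 0 u + y * hB H u₀ 1 u = 0) (h2 : x * hC H u₀ 0 u + y * hC H u₀ 1 u = 0) :
    (cb H x y).det = 0 := by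
  refine iso_det _ (indep_four hH.sq hd hu₀ hun) ?_
  have hw : ∀ j, bl (H.Q j) (vK u₀ : Fin 6 → Ω) (mK H.S *ᵥ vK u₀) = 0 ∧
      bl (H.Q j) (mK H.S *ᵥ vK u₀ : Fin 6 → Ω) (vK u₀) = 0 ∧
      bl (H.Q j) (mK H.S *ᵥ vK u₀ : Fin 6 → Ω) (mK H.S *ᵥ vK u₀) = 0 := fun j =>
    her_zero hH j (h₀ j)
  have hv : ∀ j, bl (H.Q j) u (mK H.S *ᵥ u) = 0 ∧
      bl (H.Q j) (mK H.S *ᵥ u) u = 0 ∧ bl (H.Q j) (mK H.S *ᵥ u) (mK H.S *ᵥ u) = 0 := fun j =>
    her_zero hH j (hu j)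
  have e1 : x * bl (H.Q 0) u (vK u₀) + y * bl (H.Q 1) u (vK u₀) = 0 := h1
  have e2 : x * bl (H.Q 0) u (mK H.S *ᵥ vK u₀) + y * bl (H.Q 1) u (mK H.S *ᵥ vK u₀) = 0 := h2
  have e3 : x * bl (H.Q 0) (mK H.S *ᵥ u) (vK u₀) + y * bl (H.Q 1) (mK H.S *ᵥ u) (vK u₀) = 0 := by
    have h3 : bl (H.Q 0) (mK H.S *ᵥ u) (vK u₀) = -hC H u₀ 0 u := hB_S hH 0 u
    have h4 : bl (H.Q 1) (mK H.S *ᵥ u) (vK u₀) = -hC H u₀ 1 u := hB_S hH 1 u
    rw [h3, h4]
    linear_combination -h2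
  have e4 : x * bl (H.Q 0) (mK H.S *ᵥ u) (mK H.S *ᵥ vK u₀) +
      y * bl (H.Q 1) (mK H.S *ᵥ u) (mK H.S *ᵥ vK u₀) = 0 := by
    have h3 : bl (H.Q 0) (mK H.S *ᵥ u) (mK H.S *ᵥ vK u₀) =
      -(algebraMap K Ω H.d * hB H u₀ 0 u) := hC_S hH 0 u
    have h4 : bl (H.Q 1) (mK H.S *ᵥ u) (mK H.S *ᵥ vK u₀) =
      -(algebraMap K Ω H.d * hB H u₀ 1 u) := hC_S hH 1 u
    rw [h3, h4]
    linear_combination -(algebraMap K Ω H.d) * h1
  have hc : ∀ (j : Fin 2) (a b : Fin 6 → Ω), bl (H.Q j) a b = bl (H.Q j) b a := fun j a b =>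
    bl_comm (hH.symQ j) a b
  intro i j
  rw [cb_dot]
  fin_cases i <;> fin_cases j
  · change x * bl (H.Q 0) (vK u₀) (vK u₀) + y * bl (H.Q 1) (vK u₀) (vK u₀) = 0
    rw [h₀, h₀, mul_zero, mul_zero, add_zero]
  · change x * bl (H.Q 0) (vK u₀) (mK H.S *ᵥ vK u₀) +
      y * bl (H.Q 1) (vK u₀) (mK H.S *ᵥ vK u₀) = 0
    rw [(hw 0).1, (hw 1).1, mul_zero, mul_zero, add_zero]
  · change x * bl (H.Q 0) (vK u₀) u + y * bl (H.Q 1) (vK u₀) u = 0
    rw [hc 0, hc 1, e1]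
  · change x * bl (H.Q 0) (vK u₀) (mK H.S *ᵥ u) + y * bl (H.Q 1) (vK u₀) (mK H.S *ᵥ u) = 0
    rw [hc 0, hc 1, e3]
  · change x * bl (H.Q 0) (mK H.S *ᵥ vK u₀) (vK u₀) +
      y * bl (H.Q 1) (mK H.S *ᵥ vK u₀) (vK u₀) = 0
    rw [(hw 0).2.1, (hw 1).2.1, mul_zero, mul_zero, add_zero]
  · change x * bl (H.Q 0) (mK H.S *ᵥ vK u₀) (mK H.S *ᵥ vK u₀) +
      y * bl (H.Q 1) (mK H.S *ᵥ vK u₀) (mK H.S *ᵥ vK u₀) = 0
    rw [(hw 0).2.2, (hw 1).2.2, mul_zero, mul_zero, add_zero]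
  · change x * bl (H.Q 0) (mK H.S *ᵥ vK u₀) u + y * bl (H.Q 1) (mK H.S *ᵥ vK u₀) u = 0
    rw [hc 0, hc 1, e2]
  · change x * bl (H.Q 0) (mK H.S *ᵥ vK u₀) (mK H.S *ᵥ u) +
      y * bl (H.Q 1) (mK H.S *ᵥ vK u₀) (mK H.S *ᵥ u) = 0
    rw [hc 0, hc 1, e4]
  · exact e1
  · exact e2
  · change x * bl (H.Q 0) u u + y * bl (H.Q 1) u u = 0
    rw [hu, hu, mul_zero, mul_zero, add_zero]
  · change x * bl (H.Q 0) u (mK H.S *ᵥ u) + y * bl (H.Q 1) u (mK H.S *ᵥ u) = 0
    rw [(hv 0).1, (hv 1).1, mul_zero, mul_zero, add_zero]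
  · exact e3
  · exact e4
  · change x * bl (H.Q 0) (mK H.S *ᵥ u) u + y * bl (H.Q 1) (mK H.S *ᵥ u) u = 0
    rw [(hv 0).2.1, (hv 1).2.1, mul_zero, mul_zero, add_zero]
  · change x * bl (H.Q 0) (mK H.S *ᵥ u) (mK H.S *ᵥ u) +
      y * bl (H.Q 1) (mK H.S *ᵥ u) (mK H.S *ᵥ u) = 0
    rw [(hv 0).2.2, (hv 1).2.2, mul_zero, mul_zero, add_zero]

theorem mK_det (M : Matrix (Fin 6) (Fin 6) K) :
    (mK M : Matrix (Fin 6) (Fin 6) Ω).det = algebraMap K Ω M.det :=
  (RingHom.map_det (algebraMap K Ω) M).symm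

/-- the roots of the determinant of the pencil are algebraic -/
theorem root_alg (hG : (H.Q 1).det ≠ 0) {m : Ω} (hm : (cb H m 1).det = 0) :
    IsAlgebraic K m := by
  set P : Matrix (Fin 6) (Fin 6) (Polynomial K) :=
    (Polynomial.X : Polynomial K) • (H.Q 0).map Polynomial.C + (H.Q 1).map Polynomial.C with hP
  refine ⟨P.det, fun h0 => hG ?_, ?_⟩
  · have h1 : Polynomial.evalRingHom (0 : K) P.det = (H.Q 1).det := by
      have h2 := RingHom.map_det (Polynomial.evalRingHom (0 : K)) P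
      refine h2.trans (congrArg Matrix.det ?_)
      ext i j
      simp [hP, Matrix.map_apply]
    rw [← h1, h0, map_zero]
  · have h1 : Polynomial.aeval m P.det = (cb H m 1).det := by
      have h2 := (RingHom.map_det (Polynomial.aeval m : Polynomial K →ₐ[K] Ω).toRingHom P)
      change (Polynomial.aeval m : Polynomial K →ₐ[K] Ω) P.det = _ at h2
      refine h2.trans (congrArg Matrix.det ?_)
      ext i j
      have h3 : (Polynomial.aeval m).toRingHom.mapMatrix P i j =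
          Polynomial.aeval m (Polynomial.X * Polynomial.C (H.Q 0 i j) +
            Polynomial.C (H.Q 1 i j)) := rfl
      rw [h3, map_add, map_mul, Polynomial.aeval_X, Polynomial.aeval_C, Polynomial.aeval_C]
      unfold cb
      rw [Matrix.add_apply, Matrix.smul_apply, Matrix.smul_apply, one_smul, smul_eq_mul]
      rfl
    rw [h1, hm]

/-- **The exceptional case.** -/
theorem line_alt [CharZero K] (hH : H.IsPen) (hd : NSq Ω H.d) (hu₀ : u₀ ≠ 0)
    (h₀ : ∀ j, bl (H.Q j) (vK u₀ : Fin 6 → Ω) (vK u₀) = 0)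
    (hG : ∀ x y : K, x ≠ 0 ∨ y ≠ 0 → (x • H.Q 0 + y • H.Q 1).det ≠ 0) {u : Fin 6 → Ω}
    (hu : ∀ j, bl (H.Q j) u u = 0) (hD : dt H u₀ u = 0) :
    ∃ (γ : Ω) (v : Fin 6 → Ω) (α β : Ω), (∀ i, v i ∈ ac K γ) ∧ u = sm H.S α β v := by
  have : CharZero Ω := charZero_of_injective_algebraMap (algebraMap K Ω).injective
  by_cases hsp : ∃ x y : Ω, u = x • vK u₀ + y • (mK H.S *ᵥ vK u₀)
  · obtain ⟨x, y, hxy⟩ := hsp
    exact ⟨0, vK u₀, x, y, fun i => (ac K (0 : Ω)).algebraMap_mem _, hxy⟩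
  push Not at hsp
  have hG0 : (H.Q 0).det ≠ 0 := by
    have h := hG 1 0 (Or.inl one_ne_zero)
    rwa [one_smul, zero_smul, add_zero] at h
  have hG1 : (H.Q 1).det ≠ 0 := by
    have h := hG 0 1 (Or.inr one_ne_zero)
    rwa [one_smul, zero_smul, zero_add] at h
  -- the form which vanishes on `u₀`, `u`
  obtain ⟨a, b, hab, hab1, hab2⟩ : ∃ a b : Ω, (a ≠ 0 ∨ b ≠ 0) ∧
      a * hB H u₀ 0 u + b * hB H u₀ 1 u = 0 ∧ a * hC H u₀ 0 u + b * hC H u₀ 1 u = 0 := by
    unfold dt at hD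
    by_cases h1 : hB H u₀ 0 u = 0 ∧ hB H u₀ 1 u = 0
    · by_cases h2 : hC H u₀ 0 u = 0 ∧ hC H u₀ 1 u = 0
      · exact ⟨1, 0, Or.inl one_ne_zero, by rw [h1.1]; ring, by rw [h2.1]; ring⟩
      · refine ⟨hC H u₀ 1 u, -hC H u₀ 0 u, ?_, by rw [h1.1, h1.2]; ring, by ring⟩
        by_contra hcon
        push Not at hcon
        exact h2 ⟨neg_eq_zero.1 hcon.2, hcon.1⟩
    · refine ⟨hB H u₀ 1 u, -hB H u₀ 0 u, ?_, by ring, by linear_combination -hD⟩
      by_contra hcon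
      push Not at hcon
      exact h1 ⟨neg_eq_zero.1 hcon.2, hcon.1⟩
  have hdet := cb_det hH hd hu₀ h₀ hu hsp hab1 hab2
  have hb : b ≠ 0 := by
    intro hb
    have ha : a ≠ 0 := hab.resolve_right (not_not.2 hb)
    rw [hb] at hdet
    unfold cb at hdet
    rw [zero_smul, add_zero, Matrix.det_smul, mK_det] at hdet
    rcases mul_eq_zero.1 hdet with h | h
    · exact pow_ne_zero _ ha h
    · exact hG0 ((map_eq_zero (algebraMap K Ω)).1 h)
  set m := a / b with hm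
  have hdetm : (cb H m 1).det = 0 := by
    have h1 : cb H a b = b • cb H m 1 := by
      unfold cb
      rw [smul_add, smul_smul, smul_smul, mul_one, hm, mul_div_cancel₀ _ hb]
    rw [h1, Matrix.det_smul] at hdet
    exact (mul_eq_zero.1 hdet).resolve_left (pow_ne_zero _ hb)
  have halg := root_alg hG1 hdetm
  have hm1 : m * hB H u₀ 0 u + 1 * hB H u₀ 1 u = 0 := by
    rw [hm]
    field_simp
    linear_combination hab1
  have hm2 : m * hC H u₀ 0 u + 1 * hC H u₀ 1 u = 0 := by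
    rw [hm]
    field_simp
    linear_combination hab2
  -- the two functionals
  set f₀ : Fin 6 → Ω := cb H m 1 *ᵥ vK u₀ with hf₀
  set f₁ : Fin 6 → Ω := cb H m 1 *ᵥ (mK H.S *ᵥ vK u₀) with hf₁
  have hT0 : ∀ T : IntermediateField K Ω, m ∈ T → ∀ i, f₀ i ∈ T := by
    intro T hT i
    rw [hf₀]
    unfold cb
    rw [add_mulVec, smul_mulVec, smul_mulVec, Pi.add_apply, Pi.smul_apply, Pi.smul_apply,
      smul_eq_mul, smul_eq_mul, one_mul]
    exact add_mem (mul_mem hT (mK_mem _ (fun i => mK_mem_vK u₀ i) i))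
      (mK_mem _ (fun i => mK_mem_vK u₀ i) i)
  have hT1 : ∀ T : IntermediateField K Ω, m ∈ T → ∀ i, f₁ i ∈ T := by
    intro T hT i
    rw [hf₁]
    unfold cb
    rw [add_mulVec, smul_mulVec, smul_mulVec, Pi.add_apply, Pi.smul_apply, Pi.smul_apply,
      smul_eq_mul, smul_eq_mul, one_mul]
    exact add_mem (mul_mem hT (mK_mem _ (fun i => mK_mem _ (fun i => mK_mem_vK u₀ i) i) i))
      (mK_mem _ (fun i => mK_mem _ (fun i => mK_mem_vK u₀ i) i) i)
  have hfd0 : ∀ v, f₀ ⬝ᵥ v = m * hB H u₀ 0 v + 1 * hB H u₀ 1 v := by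
    intro v
    rw [dotProduct_comm, hf₀, cb_dot]
    rfl
  have hfd1 : ∀ v, f₁ ⬝ᵥ v = m * hC H u₀ 0 v + 1 * hC H u₀ 1 v := by
    intro v
    rw [dotProduct_comm, hf₁, cb_dot]
    rfl
  obtain ⟨hz1, hz2, hz3, hz4⟩ := line_zero (Ω := Ω) hH h₀ 0
  obtain ⟨hz1', hz2', hz3', hz4'⟩ := line_zero (Ω := Ω) hH h₀ 1
  have g01 : f₀ ⬝ᵥ vK u₀ = 0 := by rw [hfd0, hz1, hz1']; ring
  have g02 : f₀ ⬝ᵥ (mK H.S *ᵥ vK u₀) = 0 := by rw [hfd0, hz3, hz3']; ring
  have g11 : f₁ ⬝ᵥ vK u₀ = 0 := by rw [hfd1, hz2, hz2']; ring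
  have g12 : f₁ ⬝ᵥ (mK H.S *ᵥ vK u₀) = 0 := by rw [hfd1, hz4, hz4']; ring
  have g0u : f₀ ⬝ᵥ u = 0 := by rw [hfd0, hm1]
  have g1u : f₁ ⬝ᵥ u = 0 := by rw [hfd1, hm2]
  have g0S : f₀ ⬝ᵥ (mK H.S *ᵥ u) = 0 := by
    rw [hfd0, hB_S hH, hB_S hH]
    linear_combination -hm2
  have g1S : f₁ ⬝ᵥ (mK H.S *ᵥ u) = 0 := by
    rw [hfd1, hC_S hH, hC_S hH]
    linear_combination -(algebraMap K Ω H.d) * hm1
  obtain ⟨t, t₁, t₂, p, x, y, α, β, α', β', hpT, hsum, hfwd, hback, huniq⟩ :=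
    normal hH.sq hd hu₀ hsp
  have hsmu : ∀ g : Fin 6 → Ω, g ⬝ᵥ u = 0 → g ⬝ᵥ (mK H.S *ᵥ u) = 0 →
      g ⬝ᵥ vK u₀ = 0 → g ⬝ᵥ (mK H.S *ᵥ vK u₀) = 0 → g ⬝ᵥ p = 0 := by
    intro g h1 h2 h3 h4
    have h5 : g ⬝ᵥ (p + x • vK u₀ + y • (mK H.S *ᵥ vK u₀)) = 0 := by
      rw [hfwd]
      unfold sm
      rw [dotProduct_add, dotProduct_smul, dotProduct_smul, h1, h2, smul_zero, smul_zero,
        add_zero]
    rw [dotProduct_add, dotProduct_add, dotProduct_smul, dotProduct_smul, h3, h4, smul_zero,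
      smul_zero, add_zero, add_zero] at h5
    exact h5
  have e0 := hsmu f₀ g0u g0S g01 g02
  have e1 := hsmu f₁ g1u g1S g11 g12
  rw [hsum] at e0 e1
  -- `f₀` is not zero
  have hf0 : f₀ ≠ 0 := by
    intro h
    have hne : H.Q 0 *ᵥ u₀ ≠ 0 := by
      intro h1
      exact hG0 ((Matrix.exists_mulVec_eq_zero_iff).1 ⟨u₀, hu₀, h1⟩)
    obtain ⟨i, hi⟩ := Function.ne_iff.1 hne
    have hi' : (H.Q 0 *ᵥ u₀) i ≠ 0 := hi
    have h1 : ∀ i, m * algebraMap K Ω ((H.Q 0 *ᵥ u₀) i) +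
        algebraMap K Ω ((H.Q 1 *ᵥ u₀) i) = 0 := by
      intro i
      have h2 := congrFun h i
      rw [hf₀] at h2
      unfold cb at h2
      rw [add_mulVec, smul_mulVec, smul_mulVec, mK_vK, mK_vK, one_smul] at h2
      exact h2
    set m₀ : K := -(H.Q 1 *ᵥ u₀) i / (H.Q 0 *ᵥ u₀) i with hm₀
    have hmm : m = algebraMap K Ω m₀ := by
      have h2 := h1 i
      have h3 : algebraMap K Ω ((H.Q 0 *ᵥ u₀) i) ≠ 0 := by
        intro h4
        exact hi' ((map_eq_zero (algebraMap K Ω)).1 h4)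
      rw [hm₀, map_div₀, map_neg, eq_div_iff h3]
      linear_combination h2
    refine hG m₀ 1 (Or.inr one_ne_zero) ((Matrix.exists_mulVec_eq_zero_iff).1 ⟨u₀, hu₀, ?_⟩)
    funext k
    have h2 := h1 k
    rw [hmm, ← map_mul, ← map_add] at h2
    rw [add_mulVec, smul_mulVec, smul_mulVec, one_smul]
    exact (map_eq_zero (algebraMap K Ω)).1 h2
  have hf1S : f₁ = -((mK H.S : Matrix (Fin 6) (Fin 6) Ω)ᵀ *ᵥ f₀) := by
    funext i
    have h1 : ∀ g : Fin 6 → Ω, g i = g ⬝ᵥ Pi.single i 1 := by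
      intro g
      rw [dotProduct_single, mul_one]
    rw [Pi.neg_apply, h1 f₁, h1 ((mK H.S : Matrix (Fin 6) (Fin 6) Ω)ᵀ *ᵥ f₀)]
    rw [mulVec_transpose, ← dotProduct_mulVec, hfd1, hfd0, hB_S hH, hB_S hH]
    ring
  -- `f₀`, `f₁` are independent
  have hind : ∀ a b : Ω, a • f₀ + b • f₁ = 0 → a = 0 ∧ b = 0 := by
    intro a b h
    by_contra hcon
    have hab : a ≠ 0 ∨ b ≠ 0 := by
      by_contra h'
      push Not at h'
      exact hcon h'
    have hN := hd.norm hab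
    apply hf0
    have hSS : (mK H.S : Matrix (Fin 6) (Fin 6) Ω)ᵀ *ᵥ ((mK H.S : Matrix (Fin 6) (Fin 6) Ω)ᵀ *ᵥ
        f₀) = algebraMap K Ω H.d • f₀ := by
      funext i
      have h1 : ∀ g : Fin 6 → Ω, g i = g ⬝ᵥ Pi.single i 1 := by
        intro g
        rw [dotProduct_single, mul_one]
      rw [h1 ((mK H.S : Matrix (Fin 6) (Fin 6) Ω)ᵀ *ᵥ ((mK H.S : Matrix (Fin 6) (Fin 6) Ω)ᵀ *ᵥ
        f₀)), h1 (algebraMap K Ω H.d • f₀)]
      rw [mulVec_transpose, ← dotProduct_mulVec, mulVec_transpose, ← dotProduct_mulVec,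
        mK_sq hH.sq, dotProduct_smul, smul_dotProduct]
    have h1 : a • f₀ - b • ((mK H.S : Matrix (Fin 6) (Fin 6) Ω)ᵀ *ᵥ f₀) = 0 := by
      rw [← h, hf1S, smul_neg, sub_eq_add_neg]
    have h2 : (mK H.S : Matrix (Fin 6) (Fin 6) Ω)ᵀ *ᵥ (a • f₀ -
        b • ((mK H.S : Matrix (Fin 6) (Fin 6) Ω)ᵀ *ᵥ f₀)) = 0 := by
      rw [h1, mulVec_zero]
    rw [mulVec_sub, mulVec_smul, mulVec_smul, hSS] at h2
    have h3 : (a ^ 2 - algebraMap K Ω H.d * b ^ 2) • f₀ = 0 := by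
      funext i
      have h4 := congrFun h1 i
      have h5 := congrFun h2 i
      simp only [Pi.sub_apply, Pi.smul_apply, smul_eq_mul, Pi.zero_apply] at h4 h5 ⊢
      linear_combination a * h4 + b * h5
    exact (smul_eq_zero.1 h3).resolve_left hN
  have hD1 : f₀ t₁ * f₁ t₂ - f₀ t₂ * f₁ t₁ ≠ 0 := by
    intro hD1
    obtain ⟨a', b', hne, h1, h2⟩ : ∃ a' b' : Ω, (a' ≠ 0 ∨ b' ≠ 0) ∧
        a' * f₀ t₁ + b' * f₁ t₁ = 0 ∧ a' * f₀ t₂ + b' * f₁ t₂ = 0 := by
      by_cases h1 : f₀ t₁ = 0 ∧ f₁ t₁ = 0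
      · by_cases h2 : f₀ t₂ = 0 ∧ f₁ t₂ = 0
        · exact ⟨1, 0, Or.inl one_ne_zero, by rw [h1.1]; ring, by rw [h2.1]; ring⟩
        · refine ⟨f₁ t₂, -f₀ t₂, ?_, by rw [h1.1, h1.2]; ring, by ring⟩
          by_contra hcon
          push Not at hcon
          exact h2 ⟨neg_eq_zero.1 hcon.2, hcon.1⟩
      · refine ⟨f₁ t₁, -f₀ t₁, ?_, by ring, by linear_combination -hD1⟩
        by_contra hcon
        push Not at hcon
        exact h1 ⟨neg_eq_zero.1 hcon.2, hcon.1⟩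
    have h3 : a' • f₀ + b' • f₁ = 0 := by
      refine huniq _ ?_ ?_ ?_ ?_ ?_ ?_
      · rw [add_dotProduct, smul_dotProduct, smul_dotProduct, g01, g11, smul_zero, smul_zero,
          add_zero]
      · rw [add_dotProduct, smul_dotProduct, smul_dotProduct, g02, g12, smul_zero, smul_zero,
          add_zero]
      · rw [add_dotProduct, smul_dotProduct, smul_dotProduct, g0u, g1u, smul_zero, smul_zero,
          add_zero]
      · rw [add_dotProduct, smul_dotProduct, smul_dotProduct, g0S, g1S, smul_zero, smul_zero,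
          add_zero]
      · exact h1
      · exact h2
    obtain ⟨h4, h5⟩ := hind a' b' h3
    rcases hne with h | h
    · exact h h4
    · exact h h5
  have hpmem : ∀ T : IntermediateField K Ω, m ∈ T → ∀ i, p i ∈ T := by
    intro T hT
    have h1 : p t₁ = (f₀ t₂ * f₁ t - f₁ t₂ * f₀ t) / (f₀ t₁ * f₁ t₂ - f₀ t₂ * f₁ t₁) := by
      rw [eq_div_iff hD1]
      linear_combination f₁ t₂ * e0 - f₀ t₂ * e1
    have h2 : p t₂ = (f₁ t₁ * f₀ t - f₀ t₁ * f₁ t) / (f₀ t₁ * f₁ t₂ - f₀ t₂ * f₁ t₁) := by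
      rw [eq_div_iff hD1]
      linear_combination f₀ t₁ * e1 - f₁ t₁ * e0
    have hDT : f₀ t₁ * f₁ t₂ - f₀ t₂ * f₁ t₁ ∈ T :=
      sub_mem (mul_mem (hT0 T hT _) (hT1 T hT _)) (mul_mem (hT0 T hT _) (hT1 T hT _))
    refine hpT T ?_ ?_
    · rw [h1]
      exact div_mem (sub_mem (mul_mem (hT0 T hT _) (hT1 T hT _))
        (mul_mem (hT1 T hT _) (hT0 T hT _))) hDT
    · rw [h2]
      exact div_mem (sub_mem (mul_mem (hT1 T hT _) (hT0 T hT _))
        (mul_mem (hT0 T hT _) (hT1 T hT _))) hDT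
  -- the last equation
  have hQ0 : bl (H.Q 0) p p + 2 * x * hB H u₀ 0 p + 2 * y * hC H u₀ 0 p = 0 := by
    rw [← Q_add hH h₀, hfwd, hH.Q_sm, hu, mul_zero]
  have hBC : hB H u₀ 0 p ≠ 0 ∨ hC H u₀ 0 p ≠ 0 := by
    by_contra hcon
    push Not at hcon
    -- then `Q 0` vanishes on `u₀`, `u`
    have h1 : hB H u₀ 0 (p + x • vK u₀ + y • (mK H.S *ᵥ vK u₀)) = 0 := by
      rw [hB_add, hB_add, hB_smul, hB_smul, hcon.1, hz1, hz3]
      ring
    have h2 : hC H u₀ 0 (p + x • vK u₀ + y • (mK H.S *ᵥ vK u₀)) = 0 := by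
      rw [hC_add, hC_add, hC_smul, hC_smul, hcon.2, hz2, hz4]
      ring
    have h3 : hB H u₀ 0 u = 0 := by
      rw [hback]
      unfold sm
      rw [hB_add, hB_smul, hB_smul, hB_S hH, h1, h2]
      ring
    have h4 : hC H u₀ 0 u = 0 := by
      rw [hback]
      unfold sm
      rw [hC_add, hC_smul, hC_smul, hC_S hH, h1, h2]
      ring
    have h5 := cb_det hH hd hu₀ h₀ hu hsp (x := 1) (y := 0) (by rw [h3]; ring)
      (by rw [h4]; ring)
    unfold cb at h5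
    rw [one_smul, zero_smul, add_zero, mK_det] at h5
    exact hG0 ((map_eq_zero (algebraMap K Ω)).1 h5)
  have h2T : ∀ T : IntermediateField K Ω, (2 : Ω) ∈ T := by
    intro T
    have := T.algebraMap_mem (2 : K)
    rwa [map_ofNat] at this
  have hfin : ∀ T : IntermediateField K Ω, m ∈ T → x ∈ T → y ∈ T →
      ∀ i, (p + x • vK u₀ + y • (mK H.S *ᵥ vK u₀) : Fin 6 → Ω) i ∈ T := by
    intro T hT hx hy i
    rw [Pi.add_apply, Pi.add_apply, Pi.smul_apply, Pi.smul_apply, smul_eq_mul, smul_eq_mul]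
    exact add_mem (add_mem (hpmem T hT i) (mul_mem hx (mK_mem_vK u₀ i)))
      (mul_mem hy (mK_mem _ (fun i => mK_mem_vK u₀ i) i))
  have hBT : ∀ T : IntermediateField K Ω, m ∈ T → hB H u₀ 0 p ∈ T := fun T hT =>
    bl_mem _ (hpmem T hT) (fun i => mK_mem_vK u₀ i)
  have hCT : ∀ T : IntermediateField K Ω, m ∈ T → hC H u₀ 0 p ∈ T := fun T hT =>
    bl_mem _ (hpmem T hT) (fun i => mK_mem _ (fun i => mK_mem_vK u₀ i) i)
  have hQT : ∀ T : IntermediateField K Ω, m ∈ T → bl (H.Q 0) p p ∈ T := fun T hT =>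
    bl_mem _ (hpmem T hT) (hpmem T hT)
  rcases hBC with hne | hne
  · refine ⟨y, _, α, β, ?_, hback⟩
    have hmT : m ∈ ac K y := mem_ac_of_alg y halg
    refine hfin _ hmT ?_ (mem_ac_self y)
    have h1 : x = -(bl (H.Q 0) p p + 2 * y * hC H u₀ 0 p) / (2 * hB H u₀ 0 p) := by
      rw [eq_div_iff (mul_ne_zero two_ne_zero hne)]
      linear_combination hQ0
    rw [h1]
    exact div_mem (neg_mem (add_mem (hQT _ hmT) (mul_mem (mul_mem (h2T _) (mem_ac_self y))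
      (hCT _ hmT)))) (mul_mem (h2T _) (hBT _ hmT))
  · refine ⟨x, _, α, β, ?_, hback⟩
    have hmT : m ∈ ac K x := mem_ac_of_alg x halg
    refine hfin _ hmT (mem_ac_self x) ?_
    have h1 : y = -(bl (H.Q 0) p p + 2 * x * hB H u₀ 0 p) / (2 * hC H u₀ 0 p) := by
      rw [eq_div_iff (mul_ne_zero two_ne_zero hne)]
      linear_combination hQ0
    rw [h1]
    exact div_mem (neg_mem (add_mem (hQT _ hmT) (mul_mem (mul_mem (h2T _) (mem_ac_self x))
      (hBT _ hmT)))) (mul_mem (h2T _) (hCT _ hmT))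

end Pool.Agent.GSE2
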