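import Pool.Agent.GSQ.Coord

/-!
# GSE2: pencils with a split quaternion algebra

`Split H`: the pencil `H` has an eigenvector over a cubic extension `M` such that the quaternion
algebra `(d, e N(e))` over `M` is a matrix algebra. Then the pencil has a common isotropic vector
over `K` (`exists_iso`), and its forms are not degenerate (`det_ne`).
-/

set_option autoImplicit false

noncomputable section

namespace Pool.Agent.GSE2

open Matrix Pool.Agent.GSH Pool.Agent.GSQ
open scoped Quaternion

/-- A split quaternion algebra: `c` is a norm. -/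
theorem norm_of_split {M : Type} [Field M] [CharZero M] {d c : M} (hd : d ≠ 0)
    (h : Nonempty (ℍ[M, d, c] ≃ₐ[M] Matrix (Fin 2) (Fin 2) M)) :
    ∃ x y : M, x ^ 2 - d * y ^ 2 = c := by
  obtain ⟨f⟩ := h
  set N : Matrix (Fin 2) (Fin 2) M := !![0, 1; 0, 0] with hN
  have hN2 : N * N = 0 := by
    ext i j
    fin_cases i <;> fin_cases j <;> simp [hN, Matrix.mul_apply]
  have hN0 : N ≠ 0 := by
    intro h0
    have h1 := congrFun (congrFun h0 0) 1
    rw [hN] at h1
    simp at h1
  set q := f.symm N with hq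
  have hq2 : q * q = 0 := by
    rw [hq, ← map_mul, hN2, map_zero]
  have hq0 : q ≠ 0 := by
    intro h0
    apply hN0
    have h1 := congrArg f h0
    rwa [hq, AlgEquiv.apply_symm_apply, map_zero] at h1
  obtain ⟨r, x, y, z⟩ := q
  have e1 := congrArg QuaternionAlgebra.re hq2
  have e2 := congrArg QuaternionAlgebra.imI hq2
  have e3 := congrArg QuaternionAlgebra.imJ hq2
  have e4 := congrArg QuaternionAlgebra.imK hq2
  simp only [QuaternionAlgebra.re_mul, QuaternionAlgebra.imI_mul, QuaternionAlgebra.imJ_mul,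
    QuaternionAlgebra.imK_mul, QuaternionAlgebra.re_zero, QuaternionAlgebra.imI_zero,
    QuaternionAlgebra.imJ_zero, QuaternionAlgebra.imK_zero] at e1 e2 e3 e4
  -- the trace is zero
  have hr : r = 0 := by
    by_contra hr
    have h2 : (2 : M) ≠ 0 := two_ne_zero
    have hx : x = 0 := by
      have h3 : 2 * r * x = 0 := by linear_combination e2
      exact (mul_eq_zero.1 h3).resolve_left (mul_ne_zero h2 hr)
    have hy : y = 0 := by
      have h3 : 2 * r * y = 0 := by linear_combination e3
      exact (mul_eq_zero.1 h3).resolve_left (mul_ne_zero h2 hr)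
    have hz : z = 0 := by
      have h3 : 2 * r * z = 0 := by linear_combination e4
      exact (mul_eq_zero.1 h3).resolve_left (mul_ne_zero h2 hr)
    rw [hx, hy, hz] at e1
    have h3 : r ^ 2 = 0 := by linear_combination e1
    exact hr (pow_eq_zero_iff two_ne_zero |>.1 h3)
  subst hr
  have e5 : d * x ^ 2 + c * (y ^ 2 - d * z ^ 2) = 0 := by linear_combination e1
  -- a square root of `d` makes every element a norm
  have hsq : ∀ δ : M, δ ^ 2 = d → ∃ x y : M, x ^ 2 - d * y ^ 2 = c := by
    intro δ hδ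
    have hδ0 : δ ≠ 0 := by
      rintro rfl
      apply hd
      rw [← hδ]
      ring
    refine ⟨(c + 1) / 2, (c - 1) / (2 * δ), ?_⟩
    rw [← hδ]
    field_simp
    ring
  by_cases hyz : y ^ 2 - d * z ^ 2 = 0
  · by_cases hz : z = 0
    · exfalso
      rw [hz] at hyz e5
      have hy : y = 0 := by
        have h3 : y ^ 2 = 0 := by linear_combination hyz
        exact pow_eq_zero_iff two_ne_zero |>.1 h3
      rw [hy] at e5
      have hx : x = 0 := by
        have h3 : d * x ^ 2 = 0 := by linear_combination e5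
        exact pow_eq_zero_iff two_ne_zero |>.1 ((mul_eq_zero.1 h3).resolve_left hd)
      apply hq0
      rw [hx, hy, hz]
      rfl
    · refine hsq (y / z) ?_
      field_simp
      linear_combination hyz
  · -- `c = - d x² / (y² - d z²)`
    refine ⟨d * x * z / (y ^ 2 - d * z ^ 2), x * y / (y ^ 2 - d * z ^ 2), ?_⟩
    field_simp
    linear_combination (-(y ^ 2 - d * z ^ 2)) * e5

variable {K : Type} [Field K]

/-- The quaternion algebra of the pencil is split. -/
def Split (H : Pen K) : Prop :=
  ∃ (M : Type) (_ : Field M) (_ : Algebra K M), Module.finrank K M = 3 ∧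
    ∃ E : Eig H M, Nonempty (ℍ[M, algebraMap K M H.d, E.c] ≃ₐ[M] Matrix (Fin 2) (Fin 2) M)

variable {M : Type} [Field M] [Algebra K M] {H : Pen K}

theorem isHer (hH : H.IsPen) : IsHer H where
  sq := hH.sq
  her := by
    intro j
    unfold pol
    rw [hH.symQ, Matrix.mul_add, Matrix.add_mul, add_add_add_comm, hH.herQ, add_zero]

theorem bl_vK (Q : Matrix (Fin 6) (Fin 6) K) {Ω : Type} [Field Ω] [Algebra K Ω]
    (u v : Fin 6 → K) : bl Q (vK u : Fin 6 → Ω) (vK v) = algebraMap K Ω (bl Q u v) := by
  simp only [bl, dotProduct, mulVec, mK, vK, Matrix.map_apply, map_sum, map_mul,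
    Algebra.algebraMap_self, RingHom.id_apply]

/-- **The isotropic vector.** -/
theorem exists_iso [CharZero K] (hH : IsHer H) (hd : H.d ≠ 0) (hM : Module.finrank K M = 3)
    (E : Eig H M) {x y : M} (hxy : x ^ 2 - algebraMap K M H.d * y ^ 2 = E.c) :
    ∃ u₀ : Fin 6 → K, u₀ ≠ 0 ∧ ∀ j, bl (H.Q j) u₀ u₀ = 0 := by
  have hfin := fin_of_three hM
  have he : E.e ≠ 0 := mul_ne_zero (pd_ne hM E) E.ne
  have hn : Algebra.norm K E.e ≠ 0 := by
    rw [Ne, Algebra.norm_eq_zero_iff]
    exact he
  have hn' : algebraMap K M (Algebra.norm K E.e) ≠ 0 := (map_ne_zero _).2 hn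
  have hc : E.c ≠ 0 := mul_ne_zero he hn'
  set a := x / E.c with ha
  set b := y / E.c with hb
  have hab : E.e * (a ^ 2 - algebraMap K M H.d * b ^ 2) =
      algebraMap K M (Algebra.norm K E.e)⁻¹ := by
    have h1 : a ^ 2 - algebraMap K M H.d * b ^ 2 = E.c⁻¹ := by
      rw [ha, hb]
      field_simp
      exact hxy
    rw [h1, map_inv₀]
    unfold Eig.c
    field_simp
  obtain ⟨s, hs⟩ := exists_s (K := K) (Ω := AlgebraicClosure K) hM
  have hvec := vec_eq hH hd hM E hs a b
  refine ⟨E.vec a b, fun h0 => ?_, fun j => ?_⟩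
  · -- the coordinates
    have h1 := ai_comb hH hd hM E hs (fun i => s i a) (fun i => s i b) 0
    have h2 := bi_comb hH hd hM E hs (fun i => s i a) (fun i => s i b) 0
    rw [← hvec, h0] at h1 h2
    have h3 : (vK (0 : Fin 6 → K) : Fin 6 → AlgebraicClosure K) = 0 := by
      funext i
      exact map_zero _
    rw [h3] at h1 h2
    have h4 : E.ai s (0 : Fin 6 → AlgebraicClosure K) 0 = 0 := by
      unfold Eig.ai bl
      simp
    have h5 : E.bi s (0 : Fin 6 → AlgebraicClosure K) 0 = 0 := by
      unfold Eig.bi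
      rw [mulVec_zero, h4, zero_div]
    rw [h4] at h1
    rw [h5] at h2
    have h6 : a = 0 := (map_eq_zero (s 0)).1 h1.symm
    have h7 : b = 0 := (map_eq_zero (s 0)).1 h2.symm
    rw [h6, h7] at hab
    apply (map_ne_zero (algebraMap K M)).2 (inv_ne_zero hn)
    rw [← hab]
    ring
  · apply (algebraMap K (AlgebraicClosure K)).injective
    rw [← bl_vK, map_zero]
    revert j
    rw [iso_iff hH hd hM E hs]
    refine ⟨algebraMap K (AlgebraicClosure K) (Algebra.norm K E.e)⁻¹, fun i => ?_⟩
    rw [hvec, ai_comb hH hd hM E hs, bi_comb hH hd hM E hs,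
      ← AlgHom.commutes (s i) (Algebra.norm K E.e)⁻¹, ← hab]
    simp only [map_mul, map_sub, map_pow, AlgHom.commutes]

/-- The forms of the pencil are not degenerate. -/
theorem det_ne [CharZero K] (hH : H.IsPen) (hd : H.d ≠ 0) (hM : Module.finrank K M = 3)
    (E : Eig H M) {x y : K} (hxy : x ≠ 0 ∨ y ≠ 0) : (x • H.Q 0 + y • H.Q 1).det ≠ 0 := by
  intro h0
  have hfin := fin_of_three hM
  have hH' := isHer hH
  obtain ⟨w, hw0, hw⟩ := (Matrix.exists_mulVec_eq_zero_iff).2 h0
  -- `m` is not in `K`
  have hm : algebraMap K M x + algebraMap K M y * E.m ≠ 0 := by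
    intro h
    by_cases hy : y = 0
    · rw [hy, map_zero, zero_mul, add_zero, map_eq_zero] at h
      rcases hxy with h1 | h1
      · exact h1 h
      · exact h1 hy
    · have h1 : E.m = algebraMap K M (-x / y) := by
        have h2 : algebraMap K M y ≠ 0 := (map_ne_zero _).2 hy
        rw [map_div₀, map_neg, eq_div_iff h2]
        linear_combination h
      have h2 := E.gen
      have h3 : IntermediateField.adjoin K {E.m} = ⊥ := by
        rw [h1, IntermediateField.adjoin_simple_eq_bot_iff]
        exact (⊥ : IntermediateField K M).algebraMap_mem _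
      rw [h3] at h2
      have h4 : Module.finrank K (⊤ : IntermediateField K M) = 1 := by
        rw [← h2, IntermediateField.finrank_bot]
      rw [IntermediateField.finrank_top', hM] at h4
      norm_num at h4
  -- the coordinates of a vector in the kernel are zero
  have hpol : ∀ j, pol H j = (2 : K) • H.Q j := by
    intro j
    unfold pol
    rw [hH.symQ, two_smul]
  have key : ∀ w : Fin 6 → K, (x • H.Q 0 + y • H.Q 1) *ᵥ w = 0 → E.aK w = 0 := by
    intro w hw
    have h1 : bl (pol H 1) E.v (vK w) = E.m * bl (pol H 0) E.v (vK w) := by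
      have hs : ∀ j, bl (pol H j) E.v (vK w : Fin 6 → M) = bl (pol H j) (vK w) E.v := by
        intro j
        unfold bl
        have h2 : (mK (pol H j) : Matrix (Fin 6) (Fin 6) M)ᵀ = mK (pol H j) := by
          rw [mK, ← Matrix.transpose_map, pol_symm]
        rw [dotProduct_comm, ← vecMul_transpose, h2, dotProduct_mulVec]
      rw [hs, hs]
      unfold bl
      rw [E.eig, dotProduct_smul, smul_eq_mul]
    have h2 : algebraMap K M x * bl (pol H 0) E.v (vK w) +
        algebraMap K M y * bl (pol H 1) E.v (vK w) = 0 := by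
      have h3 : ∀ j (u : Fin 6 → M), bl (pol H j) u (vK w) = 2 * bl (H.Q j) u (vK w) := by
        intro j u
        rw [hpol, bl_smul_mat, map_ofNat]
      have h4 : algebraMap K M x * bl (H.Q 0) E.v (vK w) +
          algebraMap K M y * bl (H.Q 1) E.v (vK w) = 0 := by
        have h5 : bl (x • H.Q 0 + y • H.Q 1) E.v (vK w : Fin 6 → M) = 0 := by
          have h6 : (mK (x • H.Q 0 + y • H.Q 1) *ᵥ vK w : Fin 6 → M) = 0 := by
            rw [mK_vK, hw]
            funext i
            exact map_zero _
          unfold bl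
          rw [h6, dotProduct_zero]
        rwa [bl_add_mat, bl_smul_mat, bl_smul_mat] at h5
      rw [h3, h3]
      linear_combination 2 * h4
    rw [h1] at h2
    have h3 : (algebraMap K M x + algebraMap K M y * E.m) * bl (pol H 0) E.v (vK w) = 0 := by
      linear_combination h2
    unfold Eig.aK
    rw [(mul_eq_zero.1 h3).resolve_left hm, zero_div]
  have ha := key w hw
  have hb : E.bK w = 0 := by
    unfold Eig.bK
    rw [key (H.S *ᵥ w) ?_, zero_div]
    have h1 : (x • H.Q 0 + y • H.Q 1) * H.S = -(H.Sᵀ * (x • H.Q 0 + y • H.Q 1)) := by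
      rw [Matrix.add_mul, Matrix.mul_add, Matrix.smul_mul, Matrix.smul_mul, Matrix.mul_smul,
        Matrix.mul_smul, eq_neg_of_add_eq_zero_right (hH.herQ 0),
        eq_neg_of_add_eq_zero_right (hH.herQ 1), smul_neg, smul_neg, neg_add]
    rw [mulVec_mulVec, h1, neg_mulVec, ← mulVec_mulVec, hw, mulVec_zero, neg_zero]
  apply hw0
  have h1 := vec_aK hH' hd hM E w
  rw [← h1, ha, hb]
  funext l
  unfold Eig.vec
  rw [zero_mul, zero_mul, add_zero, map_zero]
  rfl

/-- A pencil with a split quaternion algebra. -/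
theorem Split.exists_iso [CharZero K] (hH : H.IsPen) (hd : H.d ≠ 0) (h : Split H) :
    (∃ u₀ : Fin 6 → K, u₀ ≠ 0 ∧ ∀ j, bl (H.Q j) u₀ u₀ = 0) ∧
      ∀ x y : K, x ≠ 0 ∨ y ≠ 0 → (x • H.Q 0 + y • H.Q 1).det ≠ 0 := by
  obtain ⟨M, _, _, hM, E, hE⟩ := h
  have hfin := fin_of_three hM
  have : CharZero M := charZero_of_injective_algebraMap (algebraMap K M).injective
  obtain ⟨x, y, hxy⟩ := norm_of_split ((map_ne_zero (algebraMap K M)).2 hd) hE
  exact ⟨GSE2.exists_iso (isHer hH) hd hM E hxy, fun x y h => det_ne hH hd hM E h⟩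

end Pool.Agent.GSE2
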