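import Pool.Agent.GSE2.Line
import Pool.Agent.GSE2.Split

/-!
# GSE2: the choice of the isotropic vector

`H` a hermitian pencil with an eigenvector over the cubic field `M` such that the quaternion
algebra is split: `e N(e) = x ^ 2 - d y ^ 2`. `choice`: for every common zero `u` of the two forms
over `Ω` which is not an eigenvector of `S` there is a common isotropic vector `u₀` over `K` with
`dt H u₀ u ≠ 0`.

Proof: in the coordinates `z_i`, `z̄_i` given by the eigenvectors `u₀` can be multiplied by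
`t_i = w_i w̄_{i+1} w̄_{i+2}`, `w` in `M(√d)` arbitrary, and `dt` is a polynomial in `w`; its value
is not zero for `w_i = 0`, `w̄_k = 0` and all other coordinates equal to `1`.
-/

set_option autoImplicit false
set_option linter.unusedSectionVars false

noncomputable section

namespace Pool.Agent.GSE2

open Matrix Pool.Agent.GSH Pool.Agent.GSQ
open scoped Quaternion

variable {K : Type} [Field K] {M : Type} [Field M] [Algebra K M]

/-- the adjoint `N(x) / x` -/
def sharp (K : Type) {M : Type} [Field K] [Field M] [Algebra K M] (x : M) : M :=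
  algebraMap K M (Algebra.norm K x) / x

/-- the mixed adjoint -/
def cross (K : Type) {M : Type} [Field K] [Field M] [Algebra K M] (x y : M) : M :=
  sharp K (x + y) - sharp K x - sharp K y

section Coord

variable [CharZero K] {Ω : Type} [Field Ω] [Algebra K Ω] [IsAlgClosed Ω]
  (hM : Module.finrank K M = 3) {s : Fin 3 → (M →ₐ[K] Ω)} (hs : Function.Injective s)

include hM hs

theorem s_sharp (x : M) (i : Fin 3) : s i (sharp K x) = s (i + 1) x * s (i + 2) x := by
  unfold sharp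
  rw [map_div₀, AlgHom.commutes, nm_eq hM hs, Fin.prod_univ_three]
  by_cases hx : x = 0
  · rw [hx]
    simp
  · have h : ∀ i, s i x ≠ 0 := fun i => (map_ne_zero (s i)).2 hx
    have h0 := h 0
    have h1 := h 1
    have h2 := h 2
    fin_cases i
    · change s 0 x * s 1 x * s 2 x / s 0 x = s 1 x * s 2 x
      field_simp
    · change s 0 x * s 1 x * s 2 x / s 1 x = s 2 x * s 0 x
      field_simp
    · change s 0 x * s 1 x * s 2 x / s 2 x = s 0 x * s 1 x
      field_simp

theorem s_cross (x y : M) (i : Fin 3) : s i (cross K x y) =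
    s (i + 1) x * s (i + 2) y + s (i + 1) y * s (i + 2) x := by
  unfold cross
  rw [map_sub, map_sub, s_sharp hM hs, s_sharp hM hs, s_sharp hM hs, map_add, map_add]
  ring

end Coord

section Main

variable [CharZero K] {Ω : Type} [Field Ω] [Algebra K Ω] {H : Pen K} (hH : H.IsPen)
  (hd : H.d ≠ 0) (hM : Module.finrank K M = 3) (E : Eig H M)
  {s : Fin 3 → (M →ₐ[K] Ω)} (hs : Function.Injective s)

include hH hd hM hs

theorem ai_S (u : Fin 6 → Ω) (i : Fin 3) :
    E.ai s (mK H.S *ᵥ u) i = algebraMap K Ω H.d * E.bi s u i := by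
  unfold Eig.bi
  rw [mul_div_cancel₀ _ ((map_ne_zero _).2 hd)]

theorem bi_S (u : Fin 6 → Ω) (i : Fin 3) : E.bi s (mK H.S *ᵥ u) i = E.ai s u i := by
  have h1 := (frame (isHer hH) hd E hs).cb_S u i
  rw [frame_cb, frame_ca] at h1
  exact h1

/-- the bilinear forms in coordinates -/
theorem bil_coord (j : Fin 2) (u v : Fin 6 → Ω) : bl (H.Q j) u v = ∑ i, s i E.m ^ (j : ℕ) *
    E.ci s i * (E.ai s u i * E.ai s v i - algebraMap K Ω H.d * (E.bi s u i * E.bi s v i)) := by
  have hz : NeZero (2 : Ω) := neZero_two K Ω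
  have hpol : bl (pol H j) u v = 2 * bl (H.Q j) u v := by
    have h1 : pol H j = (2 : K) • H.Q j := by
      unfold pol
      rw [hH.symQ, two_smul]
    rw [h1, bl_smul_mat, map_ofNat]
  apply mul_left_cancel₀ (two_ne_zero (α := Ω))
  rw [← hpol, Finset.mul_sum]
  fin_cases j
  · have h1 := (frame (isHer hH) hd E hs).Q0_coord u v
    simp only [frame_ca, frame_cb, frame_c] at h1
    refine Eq.trans h1 (Finset.sum_congr rfl fun i _ => ?_)
    have h2 : (frame (isHer hH) hd E hs).d = algebraMap K Ω H.d := rfl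
    rw [h2]
    rw [show ((⟨0, by norm_num⟩ : Fin 2) : ℕ) = 0 from rfl, pow_zero]
    ring
  · have h1 := (frame (isHer hH) hd E hs).Q1_coord u v
    simp only [frame_ca, frame_cb, frame_c] at h1
    refine Eq.trans h1 (Finset.sum_congr rfl fun i _ => ?_)
    have h2 : (frame (isHer hH) hd E hs).d = algebraMap K Ω H.d := rfl
    have h3 : (frame (isHer hH) hd E hs).m i = s i E.m := rfl
    rw [h2, h3]
    rw [show ((⟨1, by norm_num⟩ : Fin 2) : ℕ) = 1 from rfl, pow_one]
    ring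

/-- the determinant `dt` in coordinates -/
theorem dt_coord {δ : Ω} (hδ : δ ^ 2 = algebraMap K Ω H.d) (u₀ : Fin 6 → K) (u : Fin 6 → Ω) :
    dt H u₀ u = δ / 2 *
      ((∑ i, E.ci s i * (E.zi s δ u i * E.zi s (-δ) (vK u₀) i)) *
        (∑ i, s i E.m * E.ci s i * (E.zi s (-δ) u i * E.zi s δ (vK u₀) i)) -
      (∑ i, E.ci s i * (E.zi s (-δ) u i * E.zi s δ (vK u₀) i)) *
        (∑ i, s i E.m * E.ci s i * (E.zi s δ u i * E.zi s (-δ) (vK u₀) i))) := by
  have hz : NeZero (2 : Ω) := neZero_two K Ω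
  have h2 : (2 : Ω) ≠ 0 := two_ne_zero
  unfold dt hB hC
  simp only [bil_coord hH hd hM E hs, ai_S hH hd hM E hs, bi_S hH hd hM E hs, Eig.zi,
    Fin.sum_univ_three, Fin.val_zero, Fin.val_one, pow_zero, pow_one, one_mul, ← hδ]
  field_simp
  ring

/-- the product of `a + b √d` with `w w̄'`, `w̄'` the adjoint of the conjugate -/
theorem exists_mul [IsAlgClosed Ω] (a b : M) (v : Fin 6 → K) : ∃ a' b' : M,
    ∀ δ : Ω, δ ^ 2 = algebraMap K Ω H.d → ∀ i, s i a' + s i b' * δ =
      (s i a + s i b * δ) * (E.zi s δ (vK v) i *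
        (E.zi s (-δ) (vK v) (i + 1) * E.zi s (-δ) (vK v) (i + 2))) := by
  set x := E.aK v with hx
  set y := E.bK v with hy
  set D := algebraMap K M H.d with hD
  set P := sharp K x + D * sharp K y with hP
  set Q := cross K x y with hQ
  refine ⟨a * (x * P - D * (y * Q)) + D * (b * (y * P - x * Q)),
    a * (y * P - x * Q) + b * (x * P - D * (y * Q)), fun δ hδ i => ?_⟩
  have hsD : s i D = δ ^ 2 := by
    rw [hD, AlgHom.commutes, hδ]
  have hz : ∀ (ε : Ω) (i : Fin 3), E.zi s ε (vK v) i = s i x + s i y * ε := by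
    intro ε i
    rw [Eig.zi, hx, hy, s_aK, s_bK]
  have hsP : s i P = s (i + 1) x * s (i + 2) x + δ ^ 2 * (s (i + 1) y * s (i + 2) y) := by
    rw [hP, map_add, map_mul, hsD, s_sharp hM hs, s_sharp hM hs]
  have hsQ : s i Q = s (i + 1) x * s (i + 2) y + s (i + 1) y * s (i + 2) x := by
    rw [hQ, s_cross hM hs]
  rw [hz, hz, hz]
  simp only [map_add, map_sub, map_mul, hsD, hsP, hsQ]
  ring

/-- the coordinates of `E.vec a b` -/
theorem zi_vec [IsAlgClosed Ω] (a b : M) (δ : Ω) (i : Fin 3) :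
    E.zi s δ (vK (E.vec a b)) i = s i a + s i b * δ := by
  rw [Eig.zi, vec_eq (isHer hH) hd hM E hs, ai_comb (isHer hH) hd hM E hs,
    bi_comb (isHer hH) hd hM E hs]

theorem zi_lin (δ : Ω) (v : Fin 6 → Ω) (i : Fin 3) :
    E.zi s δ v i = v ⬝ᵥ fun l => E.zi s δ (Pi.single l 1) i := by
  have hl : IsLinearMap Ω fun v => E.zi s δ v i := by
    refine ⟨fun x y => ?_, fun c x => ?_⟩
    · simp only [Eig.zi, Eig.ai, Eig.bi, mulVec_add, bl_add_right]
      ring
    · simp only [Eig.zi, Eig.ai, Eig.bi, mulVec_smul, bl_smul_right, smul_eq_mul]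
      ring
  have h1 := LinearMap.pi_apply_eq_sum_univ (IsLinearMap.mk' _ hl) v
  have h2 : (IsLinearMap.mk' _ hl) v = E.zi s δ v i := rfl
  rw [← h2, h1, dotProduct]
  refine Finset.sum_congr rfl fun l _ => ?_
  rw [smul_eq_mul]
  congr 1
  change E.zi s δ (fun j => if l = j then 1 else 0) i = _
  congr 1
  funext j
  rw [Pi.single_apply]
  simp only [eq_comm]

/-- the point with given coordinates -/
theorem exists_pt [IsAlgClosed Ω] {δ : Ω} (hδ : δ ^ 2 = algebraMap K Ω H.d) (w w' : Fin 3 → Ω) :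
    ∃ v : Fin 6 → Ω, (∀ i, E.zi s δ v i = w i) ∧ ∀ i, E.zi s (-δ) v i = w' i := by
  have hz : NeZero (2 : Ω) := neZero_two K Ω
  have h2 : (2 : Ω) ≠ 0 := two_ne_zero
  have hδ0 : δ ≠ 0 := by
    rintro rfl
    apply (map_ne_zero (algebraMap K Ω)).2 hd
    rw [← hδ]
    ring
  refine ⟨∑ i, (((w i + w' i) / 2) • E.vi s i +
    ((w i - w' i) / (2 * δ)) • (mK H.S *ᵥ E.vi s i)), fun i => ?_, fun i => ?_⟩
  · rw [Eig.zi, ai_comb (isHer hH) hd hM E hs, bi_comb (isHer hH) hd hM E hs]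
    field_simp
    ring
  · rw [Eig.zi, ai_comb (isHer hH) hd hM E hs, bi_comb (isHer hH) hd hM E hs]
    field_simp
    ring

/-- **The choice of the isotropic vector**, over an algebraically closed field. -/
theorem choice_alg [IsAlgClosed Ω] {x y : M} (hxy : x ^ 2 - algebraMap K M H.d * y ^ 2 = E.c)
    {δ : Ω} (hδ : δ ^ 2 = algebraMap K Ω H.d) {u : Fin 6 → Ω}
    (hu : ∀ j, bl (H.Q j) u u = 0) (hp : ∃ i, E.zi s δ u i ≠ 0) (hm : ∃ i, E.zi s (-δ) u i ≠ 0) :
    ∃ u₀ : Fin 6 → K, (∀ j, bl (H.Q j) u₀ u₀ = 0) ∧ dt H u₀ u ≠ 0 := by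
  have hfin := fin_of_three hM
  have hH' := isHer hH
  have hz : NeZero (2 : Ω) := neZero_two K Ω
  have h2 : (2 : Ω) ≠ 0 := two_ne_zero
  have hδ' : (-δ) ^ 2 = algebraMap K Ω H.d := by rw [neg_sq, hδ]
  have hδ0 : δ ≠ 0 := by
    rintro rfl
    apply (map_ne_zero (algebraMap K Ω)).2 hd
    rw [← hδ]
    ring
  -- the norm equation
  have he : E.e ≠ 0 := mul_ne_zero (pd_ne hM E) E.ne
  have hn : Algebra.norm K E.e ≠ 0 := by
    rw [Ne, Algebra.norm_eq_zero_iff]
    exact he
  have hn' : algebraMap K M (Algebra.norm K E.e) ≠ 0 := (map_ne_zero _).2 hn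
  have hc : E.c ≠ 0 := mul_ne_zero he hn'
  set a := x / E.c with ha
  set b := y / E.c with hb
  set κ : Ω := algebraMap K Ω (Algebra.norm K E.e)⁻¹ with hκ
  have hab : ∀ i, s i E.e * ((s i a + s i b * δ) * (s i a + s i b * -δ)) = κ := by
    intro i
    have h1 : E.e * (a ^ 2 - algebraMap K M H.d * b ^ 2) =
        algebraMap K M (Algebra.norm K E.e)⁻¹ := by
      have h1 : a ^ 2 - algebraMap K M H.d * b ^ 2 = E.c⁻¹ := by
        rw [ha, hb]
        field_simp
        exact hxy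
      rw [h1, map_inv₀]
      unfold Eig.c
      field_simp
    have h3 := congrArg (s i) h1
    simp only [map_mul, map_sub, map_pow, AlgHom.commutes, ← hδ] at h3
    rw [hκ, ← h3]
    ring
  have hκ0 : κ ≠ 0 := (map_ne_zero _).2 (inv_ne_zero hn)
  have hz0 : ∀ i, s i a + s i b * δ ≠ 0 := by
    intro i h
    apply hκ0
    rw [← hab i, h]
    ring
  have hz0' : ∀ i, s i a + s i b * -δ ≠ 0 := by
    intro i h
    apply hκ0
    rw [← hab i, h]
    ring
  have hci : ∀ i, E.ci s i ≠ 0 := fun i => (map_ne_zero (s i)).2 E.ne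
  have hsi := s_m_inj E hs
  -- two different indices
  obtain ⟨i₀, k₀, hik, hzi, hzk⟩ : ∃ i k : Fin 3, i ≠ k ∧ E.zi s δ u i ≠ 0 ∧
      E.zi s (-δ) u k ≠ 0 := by
    obtain ⟨i, hi⟩ := hp
    obtain ⟨k, hk⟩ := hm
    obtain ⟨r, hr⟩ := (iso_iff hH' hd hM E hs u).1 hu
    have hr' : ∀ i, s i E.e * (E.zi s δ u i * E.zi s (-δ) u i) = r := by
      intro i
      rw [← hr i, ← hδ]
      unfold Eig.zi
      ring
    have hse : ∀ i, s i E.e ≠ 0 := fun i => (map_ne_zero (s i)).2 he
    by_cases hr0 : r = 0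
    · by_cases hik : i = k
      · exfalso
        subst hik
        have h3 := hr' i
        rw [hr0] at h3
        rcases mul_eq_zero.1 h3 with h4 | h4
        · exact hse i h4
        · rcases mul_eq_zero.1 h4 with h5 | h5
          · exact hi h5
          · exact hk h5
      · exact ⟨i, k, hik, hi, hk⟩
    · refine ⟨0, 1, by decide, fun h => hr0 ?_, fun h => hr0 ?_⟩
      · rw [← hr' 0, h]
        ring
      · rw [← hr' 1, h]
        ring
  -- the polynomial
  set Wp : Fin 3 → MvPolynomial (Fin 6) Ω := fun i => lf fun l => E.zi s δ (Pi.single l 1) i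
    with hWp
  set Wm : Fin 3 → MvPolynomial (Fin 6) Ω := fun i => lf fun l => E.zi s (-δ) (Pi.single l 1) i
    with hWm
  have eWp : ∀ v i, MvPolynomial.eval v (Wp i) = E.zi s δ v i := by
    intro v i
    rw [hWp, eval_lf, ← zi_lin hH hd hM E hs]
  have eWm : ∀ v i, MvPolynomial.eval v (Wm i) = E.zi s (-δ) v i := by
    intro v i
    rw [hWm, eval_lf, ← zi_lin hH hd hM E hs]
  set Tp : Fin 3 → MvPolynomial (Fin 6) Ω := fun i => Wp i * (Wm (i + 1) * Wm (i + 2)) with hTp
  set Tm : Fin 3 → MvPolynomial (Fin 6) Ω := fun i => Wm i * (Wp (i + 1) * Wp (i + 2)) with hTm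
  set A : Fin 3 → Ω := fun i => E.ci s i * (E.zi s δ u i * (s i a + s i b * -δ)) with hA
  set B : Fin 3 → Ω := fun i => E.ci s i * (E.zi s (-δ) u i * (s i a + s i b * δ)) with hB
  set F : MvPolynomial (Fin 6) Ω :=
    (∑ i, MvPolynomial.C (A i) * Tm i) * (∑ i, MvPolynomial.C (s i E.m * B i) * Tp i) -
      (∑ i, MvPolynomial.C (B i) * Tp i) * (∑ i, MvPolynomial.C (s i E.m * A i) * Tm i) with hF
  -- its value at the special point
  obtain ⟨p, hp1, hp2⟩ := exists_pt hH hd hM E hs hδ (fun i => if i = i₀ then 0 else 1)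
    (fun i => if i = k₀ then 0 else 1)
  have hFp : MvPolynomial.eval p F ≠ 0 := by
    have hTpe : ∀ i, MvPolynomial.eval p (Tp i) = if i = k₀ then 1 else 0 := by
      intro i
      rw [hTp]
      simp only [map_mul, eWp, eWm, hp1, hp2]
      clear * - hik
      revert i₀ k₀
      revert i
      intro i i₀ k₀ h
      fin_cases i <;> fin_cases i₀ <;> fin_cases k₀ <;> simp_all
    have hTme : ∀ i, MvPolynomial.eval p (Tm i) = if i = i₀ then 1 else 0 := by
      intro i
      rw [hTm]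
      simp only [map_mul, eWp, eWm, hp1, hp2]
      clear * - hik
      revert i₀ k₀
      revert i
      intro i i₀ k₀ h
      fin_cases i <;> fin_cases i₀ <;> fin_cases k₀ <;> simp_all
    have h3 : MvPolynomial.eval p F = (s k₀ E.m - s i₀ E.m) * (A i₀ * B k₀) := by
      rw [hF]
      simp only [map_sub, map_mul, map_sum, MvPolynomial.eval_C, hTpe, hTme, mul_ite, mul_one,
        mul_zero, Finset.sum_ite_eq', Finset.mem_univ, if_true]
      ring
    rw [h3]
    refine mul_ne_zero (sub_ne_zero.2 fun h => hik (hsi h).symm) (mul_ne_zero ?_ ?_)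
    · exact mul_ne_zero (hci _) (mul_ne_zero hzi (hz0' _))
    · exact mul_ne_zero (hci _) (mul_ne_zero hzk (hz0 _))
  -- a point over `K`
  obtain ⟨v, hv⟩ : ∃ v : Fin 6 → K, MvPolynomial.eval (vK v) F ≠ 0 := by
    by_contra hcon
    push Not at hcon
    have hinf : Infinite K := inferInstance
    refine hFp (poly_zero (m := (0 : Fin 2 → Fin 6 → K)) (fun z _ => hcon z) fun j => ?_)
    have h3 : (vK ((0 : Fin 2 → Fin 6 → K) j) : Fin 6 → Ω) = 0 := by
      funext l
      exact map_zero _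
    rw [h3, dotProduct_zero]
  obtain ⟨a', b', hab'⟩ := exists_mul (Ω := Ω) hH hd hM E hs a b v
  have hzp : ∀ i, E.zi s δ (vK (E.vec a' b')) i = (s i a + s i b * δ) *
      MvPolynomial.eval (vK v) (Tp i) := by
    intro i
    rw [zi_vec hH hd hM E hs, hab' δ hδ i, hTp]
    simp only [map_mul, eWp, eWm]
  have hzm : ∀ i, E.zi s (-δ) (vK (E.vec a' b')) i = (s i a + s i b * -δ) *
      MvPolynomial.eval (vK v) (Tm i) := by
    intro i
    rw [zi_vec hH hd hM E hs, hab' (-δ) hδ' i, hTm]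
    simp only [map_mul, eWp, eWm, neg_neg]
  refine ⟨E.vec a' b', fun j => ?_, ?_⟩
  · apply (algebraMap K Ω).injective
    rw [← bl_vK, map_zero]
    revert j
    rw [iso_iff hH' hd hM E hs]
    refine ⟨κ * ∏ i, (E.zi s δ (vK v) i * E.zi s (-δ) (vK v) i), fun i => ?_⟩
    have h3 : E.ai s (vK (E.vec a' b')) i ^ 2 -
        algebraMap K Ω H.d * E.bi s (vK (E.vec a' b')) i ^ 2 =
        E.zi s δ (vK (E.vec a' b')) i * E.zi s (-δ) (vK (E.vec a' b')) i := by
      rw [← hδ]
      unfold Eig.zi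
      ring
    rw [h3, hzp, hzm, ← hab i, hTp, hTm, Fin.prod_univ_three]
    simp only [map_mul, eWp, eWm]
    fin_cases i
    · change s 0 E.e * ((s 0 a + s 0 b * δ) * (E.zi s δ (vK v) 0 * (E.zi s (-δ) (vK v) 1 *
        E.zi s (-δ) (vK v) 2)) * ((s 0 a + s 0 b * -δ) * (E.zi s (-δ) (vK v) 0 *
        (E.zi s δ (vK v) 1 * E.zi s δ (vK v) 2)))) =
        s 0 E.e * ((s 0 a + s 0 b * δ) * (s 0 a + s 0 b * -δ)) * _
      ring
    · change s 1 E.e * ((s 1 a + s 1 b * δ) * (E.zi s δ (vK v) 1 * (E.zi s (-δ) (vK v) 2 *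
        E.zi s (-δ) (vK v) 0)) * ((s 1 a + s 1 b * -δ) * (E.zi s (-δ) (vK v) 1 *
        (E.zi s δ (vK v) 2 * E.zi s δ (vK v) 0)))) =
        s 1 E.e * ((s 1 a + s 1 b * δ) * (s 1 a + s 1 b * -δ)) * _
      ring
    · change s 2 E.e * ((s 2 a + s 2 b * δ) * (E.zi s δ (vK v) 2 * (E.zi s (-δ) (vK v) 0 *
        E.zi s (-δ) (vK v) 1)) * ((s 2 a + s 2 b * -δ) * (E.zi s (-δ) (vK v) 2 *
        (E.zi s δ (vK v) 0 * E.zi s δ (vK v) 1)))) =
        s 2 E.e * ((s 2 a + s 2 b * δ) * (s 2 a + s 2 b * -δ)) * _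
      ring
  · rw [dt_coord hH hd hM E hs hδ]
    refine mul_ne_zero (div_ne_zero hδ0 h2) ?_
    intro h3
    apply hv
    rw [hF, ← h3]
    simp only [map_sub, map_mul, map_sum, MvPolynomial.eval_C, hzp, hzm, hA, hB]
    congr 1
    · congr 1
      · exact Finset.sum_congr rfl fun i _ => by ring
      · exact Finset.sum_congr rfl fun i _ => by ring
    · congr 1
      · exact Finset.sum_congr rfl fun i _ => by ring
      · exact Finset.sum_congr rfl fun i _ => by ring

end Main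

/-- **The choice of the isotropic vector.** -/
theorem choice [CharZero K] {Ω : Type} [Field Ω] [Algebra K Ω] {H : Pen K} (hH : H.IsPen)
    (hd : H.d ≠ 0) (hS : Split H) {u : Fin 6 → Ω} (hu : ∀ j, bl (H.Q j) u u = 0) (hu0 : u ≠ 0)
    (hne : ∀ δ : Ω, δ ^ 2 = algebraMap K Ω H.d → mK H.S *ᵥ u ≠ δ • u) :
    ∃ u₀ : Fin 6 → K, (∀ j, bl (H.Q j) u₀ u₀ = 0) ∧ dt H u₀ u ≠ 0 := by
  obtain ⟨M, _, _, hM, E, hE⟩ := hS
  have hfin := fin_of_three hM
  have : CharZero M := charZero_of_injective_algebraMap (algebraMap K M).injective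
  obtain ⟨x, y, hxy⟩ := norm_of_split ((map_ne_zero (algebraMap K M)).2 hd) hE
  obtain ⟨s, hs⟩ := exists_s (M := M) (Ω := AlgebraicClosure Ω) hM
  obtain ⟨δ, hδ⟩ := IsAlgClosed.exists_pow_nat_eq (algebraMap K (AlgebraicClosure Ω) H.d)
    zero_lt_two
  set f := algebraMap Ω (AlgebraicClosure Ω) with hf
  set u' : Fin 6 → AlgebraicClosure Ω := fun l => f (u l) with hu'
  have hmap : ∀ (A : Matrix (Fin 6) (Fin 6) K) (x y : Fin 6 → Ω),
      bl A (fun l => f (x l)) (fun l => f (y l)) = f (bl A x y) := by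
    intro A x y
    simp only [bl, dotProduct, mulVec, mK, Matrix.map_apply, map_sum, map_mul, hf,
      ← IsScalarTower.algebraMap_apply]
  have hmul : ∀ (A : Matrix (Fin 6) (Fin 6) K) (x : Fin 6 → Ω) (l : Fin 6),
      (mK A *ᵥ fun l => f (x l)) l = f ((mK A *ᵥ x) l) := by
    intro A x l
    simp only [dotProduct, mulVec, mK, Matrix.map_apply, map_sum, map_mul, hf,
      ← IsScalarTower.algebraMap_apply]
  have hiso : ∀ j, bl (H.Q j) u' u' = 0 := by
    intro j
    rw [hu', hmap, hu, map_zero]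
  -- not an eigenvector
  have key : ∀ ε : AlgebraicClosure Ω, ε ^ 2 = algebraMap K (AlgebraicClosure Ω) H.d →
      ∃ i, E.zi s ε u' i ≠ 0 := by
    intro ε hε
    by_contra hcon
    push Not at hcon
    have hab : ∀ i, E.ai s u' i = -(E.bi s u' i * ε) := fun i =>
      eq_neg_of_add_eq_zero_left (hcon i)
    have h1 : mK H.S *ᵥ u' = -ε • u' := by
      conv_lhs => rw [coord (isHer hH) hd hM E hs (mK H.S *ᵥ u')]
      conv_rhs => rw [coord (isHer hH) hd hM E hs u']
      rw [Finset.smul_sum]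
      refine Finset.sum_congr rfl fun i _ => ?_
      rw [ai_S hH hd hM E hs, bi_S hH hd hM E hs, smul_add, smul_smul, smul_smul, hab, ← hε]
      congr 2
      · ring
      · ring
    obtain ⟨l, hl⟩ := Function.ne_iff.1 hu0
    have hl' : u l ≠ 0 := hl
    set η : Ω := (mK H.S *ᵥ u) l / u l with hη
    have hηε : f η = -ε := by
      have h2 := congrFun h1 l
      rw [hu', hmul, Pi.smul_apply, smul_eq_mul] at h2
      rw [hη, map_div₀, h2, mul_div_assoc, div_self ((map_ne_zero f).2 hl'), mul_one]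
    refine hne η (f.injective ?_) (funext fun k => f.injective ?_)
    · rw [map_pow, hηε, neg_sq, hε, hf, ← IsScalarTower.algebraMap_apply]
    · have h2 := congrFun h1 k
      rw [hu', hmul, Pi.smul_apply, smul_eq_mul] at h2
      rw [h2, Pi.smul_apply, smul_eq_mul, map_mul, hηε]
  have hδ' : (-δ) ^ 2 = algebraMap K (AlgebraicClosure Ω) H.d := by rw [neg_sq, hδ]
  obtain ⟨u₀, h1, h2⟩ := choice_alg hH hd hM E hs hxy hδ hiso (key δ hδ) (key (-δ) hδ')
  refine ⟨u₀, h1, fun h3 => h2 ?_⟩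
  have hv : (vK u₀ : Fin 6 → AlgebraicClosure Ω) = fun l => f ((vK u₀ : Fin 6 → Ω) l) := by
    funext l
    exact IsScalarTower.algebraMap_apply K Ω (AlgebraicClosure Ω) (u₀ l)
  have hv' : (mK H.S *ᵥ vK u₀ : Fin 6 → AlgebraicClosure Ω) =
      fun l => f ((mK H.S *ᵥ vK u₀ : Fin 6 → Ω) l) := by
    funext l
    rw [hv, hmul]
  have h4 : dt H u₀ u' = f (dt H u₀ u) := by
    unfold dt hB hC
    rw [hv', hv, hu', hmap, hmap, hmap, hmap, map_sub, map_mul, map_mul]
  rw [h4, h3, map_zero]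

end Pool.Agent.GSE2
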