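import Pool.Agent.GSH.Pen

/-!
# GSE2: a hermitian pencil with a common isotropic vector

`H` a pencil of two hermitian forms on `U = L ^ 3`, `L = K(√d)`, `u₀` in `U` (over `K`) with
`Q₀(u₀) = Q₁(u₀) = 0`. The classes modulo `L^*` of the common zeros `u` of `Q₀`, `Q₁` over `Ω`:
a class has a representative in a hyperplane (over `K`) through the line `⟨u₀, S u₀⟩`; there
`Q₀ = Q₁ = 0` is a del Pezzo surface of degree 4 which contains this line, and the projection from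
the line is birational. `dt H u₀ u` is the determinant of the two linear equations of this
projection.

`line_rat`: if it is not zero, then `u` is a multiple (by an element of `L ⊗ Ω`) of a vector over
`K(a, b)` for two elements `a`, `b` of `Ω`.
-/

set_option autoImplicit false

noncomputable section

namespace Pool.Agent.GSE2

open Matrix Pool.Agent.GSH

variable {K Ω : Type} [Field K] [Field Ω] [Algebra K Ω]

/-- `h_j(u, u₀)` in `L`, the component in `K` -/
def hB (H : Pen K) (u₀ : Fin 6 → K) (j : Fin 2) (u : Fin 6 → Ω) : Ω := bl (H.Q j) u (vK u₀)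

/-- `h_j(u, u₀)` in `L`, the component in `K √d` -/
def hC (H : Pen K) (u₀ : Fin 6 → K) (j : Fin 2) (u : Fin 6 → Ω) : Ω :=
  bl (H.Q j) u (mK H.S *ᵥ vK u₀)

/-- the determinant of the projection from the line `⟨u₀, S u₀⟩` -/
def dt (H : Pen K) (u₀ : Fin 6 → K) (u : Fin 6 → Ω) : Ω :=
  hB H u₀ 0 u * hC H u₀ 1 u - hC H u₀ 0 u * hB H u₀ 1 u

variable {H : Pen K} {u₀ : Fin 6 → K}

theorem hB_S (hH : H.IsPen) (j : Fin 2) (u : Fin 6 → Ω) :
    hB H u₀ j (mK H.S *ᵥ u) = -hC H u₀ j u := by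
  unfold hB hC
  rw [bl_left, bl_right, eq_neg_of_add_eq_zero_left (hH.herQ j)]
  have h1 := bl_smul_mat (Ω := Ω) (-1 : K) (H.Q j * H.S) u (vK u₀)
  rw [neg_one_smul, map_neg, map_one, neg_one_mul] at h1
  exact h1

theorem hC_S (hH : H.IsPen) (j : Fin 2) (u : Fin 6 → Ω) :
    hC H u₀ j (mK H.S *ᵥ u) = -(algebraMap K Ω H.d * hB H u₀ j u) := by
  unfold hB hC
  rw [bl_right, bl_left, ← Matrix.mul_assoc, eq_neg_of_add_eq_zero_left (hH.herQ j),
    Matrix.neg_mul, Matrix.mul_assoc, hH.sq, Matrix.mul_smul, Matrix.mul_one, ← neg_smul,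
    bl_smul_mat, map_neg, neg_mul]

theorem hB_add (j : Fin 2) (u v : Fin 6 → Ω) : hB H u₀ j (u + v) = hB H u₀ j u + hB H u₀ j v :=
  bl_add_left _ _ _ _

theorem hC_add (j : Fin 2) (u v : Fin 6 → Ω) : hC H u₀ j (u + v) = hC H u₀ j u + hC H u₀ j v :=
  bl_add_left _ _ _ _

theorem hB_smul (j : Fin 2) (c : Ω) (u : Fin 6 → Ω) : hB H u₀ j (c • u) = c * hB H u₀ j u :=
  bl_smul_left _ _ _ _

theorem hC_smul (j : Fin 2) (c : Ω) (u : Fin 6 → Ω) : hC H u₀ j (c • u) = c * hC H u₀ j u :=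
  bl_smul_left _ _ _ _

theorem dt_sm (hH : H.IsPen) (α β : Ω) (u : Fin 6 → Ω) :
    dt H u₀ (sm H.S α β u) = (α ^ 2 - algebraMap K Ω H.d * β ^ 2) * dt H u₀ u := by
  unfold dt sm
  simp only [hB_add, hC_add, hB_smul, hC_smul, hB_S hH, hC_S hH]
  ring

theorem bl_comm {M : Matrix (Fin 6) (Fin 6) K} (hM : Mᵀ = M) (u v : Fin 6 → Ω) :
    bl M u v = bl M v u := by
  unfold bl
  have h1 : (mK M : Matrix (Fin 6) (Fin 6) Ω)ᵀ = mK M := by
    rw [mK, ← Matrix.transpose_map, hM]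
  rw [dotProduct_comm, ← vecMul_transpose, h1, dotProduct_mulVec]

theorem mK_mem_vK {T : IntermediateField K Ω} (x : Fin 6 → K) (i : Fin 6) :
    (vK x : Fin 6 → Ω) i ∈ T := T.algebraMap_mem _

/-- the values of the forms on the line -/
theorem line_zero [CharZero K] (hH : H.IsPen)
    (h₀ : ∀ j, bl (H.Q j) (vK u₀ : Fin 6 → Ω) (vK u₀) = 0) (j : Fin 2) :
    hB H u₀ j (vK u₀ : Fin 6 → Ω) = 0 ∧ hC H u₀ j (vK u₀ : Fin 6 → Ω) = 0 ∧
      hB H u₀ j (mK H.S *ᵥ vK u₀ : Fin 6 → Ω) = 0 ∧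
        hC H u₀ j (mK H.S *ᵥ vK u₀ : Fin 6 → Ω) = 0 := by
  have : CharZero Ω := charZero_of_injective_algebraMap (algebraMap K Ω).injective
  have h1 : hB H u₀ j (vK u₀ : Fin 6 → Ω) = 0 := h₀ j
  have h2 : hC H u₀ j (vK u₀ : Fin 6 → Ω) = 0 := by
    have h3 := hB_S (u₀ := u₀) hH j (vK u₀ : Fin 6 → Ω)
    have h4 : hB H u₀ j (mK H.S *ᵥ vK u₀ : Fin 6 → Ω) = hC H u₀ j (vK u₀ : Fin 6 → Ω) :=
      bl_comm (hH.symQ j) _ _
    rw [h4] at h3
    have h5 : (2 : Ω) * hC H u₀ j (vK u₀ : Fin 6 → Ω) = 0 := by linear_combination h3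
    exact (mul_eq_zero.1 h5).resolve_left two_ne_zero
  refine ⟨h1, h2, ?_, ?_⟩
  · rw [hB_S hH, h2, neg_zero]
  · rw [hC_S hH, h1, mul_zero, neg_zero]

theorem dt_add [CharZero K] (hH : H.IsPen)
    (h₀ : ∀ j, bl (H.Q j) (vK u₀ : Fin 6 → Ω) (vK u₀) = 0) (u : Fin 6 → Ω) (x y : Ω) :
    dt H u₀ (u + x • vK u₀ + y • (mK H.S *ᵥ vK u₀)) = dt H u₀ u := by
  unfold dt
  simp only [hB_add, hC_add, hB_smul, hC_smul, (line_zero hH h₀ _).1, (line_zero hH h₀ _).2.1,
    (line_zero hH h₀ _).2.2.1, (line_zero hH h₀ _).2.2.2, mul_zero, add_zero]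

theorem Q_add [CharZero K] (hH : H.IsPen)
    (h₀ : ∀ j, bl (H.Q j) (vK u₀ : Fin 6 → Ω) (vK u₀) = 0) (j : Fin 2) (s : Fin 6 → Ω) (x y : Ω) :
    bl (H.Q j) (s + x • vK u₀ + y • (mK H.S *ᵥ vK u₀)) (s + x • vK u₀ + y • (mK H.S *ᵥ vK u₀)) =
      bl (H.Q j) s s + 2 * x * hB H u₀ j s + 2 * y * hC H u₀ j s := by
  obtain ⟨h1, h2, h3, h4⟩ := line_zero (Ω := Ω) hH h₀ j
  unfold hB at h1 h3
  unfold hC at h2 h4
  unfold hB hC
  simp only [bl_add_left, bl_add_right, bl_smul_left, bl_smul_right, h1, h2, h3, h4]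
  rw [bl_comm (hH.symQ j) (vK u₀) s, bl_comm (hH.symQ j) (mK H.S *ᵥ vK u₀) s]
  ring

/-- the index set of the three remaining coordinates -/
theorem exists_three {i k l : Fin 6} (h1 : i ≠ k) (h2 : l ≠ i) (h3 : l ≠ k) :
    ∃ e : Fin 3 → Fin 6, ∀ m, m = i ∨ m = k ∨ m = l ∨ ∃ t, m = e t := by
  revert i k l
  decide +kernel

theorem exists_two (t : Fin 3) : ∃ t₁ t₂ : Fin 3, ∀ m, m = t ∨ m = t₁ ∨ m = t₂ := by
  revert t
  decide

/-- The projection from the line. -/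
theorem line_rat [CharZero K] (hH : H.IsPen) (hd : NSq Ω H.d)
    (h₀ : ∀ j, bl (H.Q j) (vK u₀ : Fin 6 → Ω) (vK u₀) = 0) {u : Fin 6 → Ω}
    (hu : ∀ j, bl (H.Q j) u u = 0) (hD : dt H u₀ u ≠ 0) :
    ∃ (a b : Ω) (v : Fin 6 → Ω) (α β : Ω), (∀ i, v i ∈ IntermediateField.adjoin K {a, b}) ∧
      u = sm H.S α β v := by
  have : CharZero Ω := charZero_of_injective_algebraMap (algebraMap K Ω).injective
  have hu0 : (vK u₀ : Fin 6 → Ω) ≠ 0 := by
    intro h
    apply hD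
    unfold dt hB hC bl
    rw [h]
    simp
  obtain ⟨i, k, hΔ⟩ := exists_minor hH.sq hd hu0
  set w : Fin 6 → Ω := vK u₀ with hw
  set w' : Fin 6 → Ω := mK H.S *ᵥ vK u₀ with hw'
  set Δ : Ω := w i * w' k - w k * w' i with hΔd
  -- the projection along the line
  set X : (Fin 6 → Ω) → Ω := fun v => (v i * w' k - v k * w' i) / Δ with hX
  set Y : (Fin 6 → Ω) → Ω := fun v => (w i * v k - w k * v i) / Δ with hY
  set s : (Fin 6 → Ω) → Fin 6 → Ω := fun v => v - X v • w - Y v • w' with hs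
  have hsi : ∀ v, s v i = 0 := by
    intro v
    simp only [hs, hX, hY, Pi.sub_apply, Pi.smul_apply, smul_eq_mul]
    field_simp
    rw [hΔd]
    ring
  have hsk : ∀ v, s v k = 0 := by
    intro v
    simp only [hs, hX, hY, Pi.sub_apply, Pi.smul_apply, smul_eq_mul]
    field_simp
    rw [hΔd]
    ring
  have hadd : ∀ (v v' : Fin 6 → Ω) (α β : Ω), s (α • v + β • v') = α • s v + β • s v' := by
    intro v v' α β
    funext m
    simp only [hs, hX, hY, Pi.sub_apply, Pi.smul_apply, smul_eq_mul, Pi.add_apply]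
    field_simp
    ring
  have hv : ∀ v, v = s v + X v • w + Y v • w' := by
    intro v
    simp only [hs]
    abel
  have hdt : ∀ v, dt H u₀ (s v) = dt H u₀ v := by
    intro v
    conv_rhs => rw [hv v]
    rw [dt_add hH h₀]
  have hdt0 : ∀ v, s v = 0 → dt H u₀ v = 0 := by
    intro v h
    rw [← hdt, h]
    unfold dt hB hC bl
    simp
  obtain ⟨l, hl⟩ : ∃ l, s u l ≠ 0 := by
    by_contra hcon
    push Not at hcon
    exact hD (hdt0 u (funext hcon))
  have hik : i ≠ k := by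
    rintro rfl
    exact hΔ (sub_self _)
  have hli : l ≠ i := by
    rintro rfl
    exact hl (hsi u)
  have hlk : l ≠ k := by
    rintro rfl
    exact hl (hsk u)
  -- the representative with `s_l = 0`
  set α := s (mK H.S *ᵥ u) l with hα
  set β := -(s u l) with hβ
  have hβ0 : β ≠ 0 := neg_ne_zero.2 hl
  have hN := hd.norm (α := α) (β := β) (Or.inr hβ0)
  set u' := sm H.S α β u with hu'
  have hsl : s u' l = 0 := by
    rw [hu']
    unfold sm
    rw [hadd, Pi.add_apply, Pi.smul_apply, Pi.smul_apply, smul_eq_mul, smul_eq_mul, hα, hβ]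
    ring
  have hD' : dt H u₀ u' ≠ 0 := by
    rw [hu', dt_sm hH]
    exact mul_ne_zero hN hD
  obtain ⟨e, he⟩ := exists_three hik hli hlk
  obtain ⟨t, ht⟩ : ∃ t, s u' (e t) ≠ 0 := by
    by_contra hcon
    push Not at hcon
    refine hD' (hdt0 u' (funext fun m => ?_))
    rcases he m with rfl | rfl | rfl | ⟨t, rfl⟩
    · exact hsi u'
    · exact hsk u'
    · exact hsl
    · exact hcon t
  -- scaling
  set c := (s u' (e t))⁻¹ with hc
  have hc0 : c ≠ 0 := inv_ne_zero ht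
  obtain ⟨t₁, t₂, htt⟩ := exists_two t
  set a := c * s u' (e t₁) with ha
  set b := c * s u' (e t₂) with hb
  set T := IntermediateField.adjoin K ({a, b} : Set Ω) with hT
  have haT : a ∈ T := IntermediateField.subset_adjoin K _ (by simp)
  have hbT : b ∈ T := IntermediateField.subset_adjoin K _ (by simp)
  set p : Fin 6 → Ω := c • s u' with hp
  have hpT : ∀ m, p m ∈ T := by
    intro m
    rw [hp, Pi.smul_apply, smul_eq_mul]
    rcases he m with rfl | rfl | rfl | ⟨t', rfl⟩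
    · rw [hsi, mul_zero]
      exact zero_mem _
    · rw [hsk, mul_zero]
      exact zero_mem _
    · rw [hsl, mul_zero]
      exact zero_mem _
    · rcases htt t' with rfl | rfl | rfl
      · rw [hc, inv_mul_cancel₀ ht]
        exact one_mem _
      · exact haT
      · exact hbT
  set x := c * X u' with hx
  set y := c * Y u' with hy
  set v := c • u' with hvd
  have hvp : v = p + x • w + y • w' := by
    rw [hvd]
    conv_lhs => rw [hv u']
    rw [hp, hx, hy, smul_add, smul_add, smul_smul, smul_smul]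
  have hwT : ∀ m, w m ∈ T := fun m => mK_mem_vK u₀ m
  have hw'T : ∀ m, w' m ∈ T := fun m => mK_mem H.S hwT m
  have hBT : ∀ j, hB H u₀ j p ∈ T := fun j => bl_mem _ hpT hwT
  have hCT : ∀ j, hC H u₀ j p ∈ T := fun j => bl_mem _ hpT hw'T
  have hQT : ∀ j, bl (H.Q j) p p ∈ T := fun j => bl_mem _ hpT hpT
  have hDp : dt H u₀ p ≠ 0 := by
    have h1 : dt H u₀ p = c ^ 2 * dt H u₀ (s u') := by
      rw [hp]
      unfold dt
      rw [hB_smul, hB_smul, hC_smul, hC_smul]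
      ring
    rw [h1, hdt]
    exact mul_ne_zero (pow_ne_zero 2 hc0) hD'
  have hQv : ∀ j, bl (H.Q j) p p + 2 * x * hB H u₀ j p + 2 * y * hC H u₀ j p = 0 := by
    intro j
    rw [← Q_add hH h₀, ← hw, ← hw', ← hvp, hvd, bl_smul_left, bl_smul_right, hu', hH.Q_sm, hu,
      mul_zero, mul_zero, mul_zero]
  have hDT : dt H u₀ p ∈ T := sub_mem (mul_mem (hBT 0) (hCT 1)) (mul_mem (hCT 0) (hBT 1))
  have h2T : (2 : Ω) ∈ T := by
    have := T.algebraMap_mem (2 : K)
    rwa [map_ofNat] at this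
  have hxT : x ∈ T := by
    have h1 : x = (hC H u₀ 0 p * bl (H.Q 1) p p - hC H u₀ 1 p * bl (H.Q 0) p p) /
        (2 * dt H u₀ p) := by
      rw [eq_div_iff (mul_ne_zero two_ne_zero hDp)]
      unfold dt
      linear_combination hC H u₀ 1 p * hQv 0 - hC H u₀ 0 p * hQv 1
    rw [h1]
    exact div_mem (sub_mem (mul_mem (hCT 0) (hQT 1)) (mul_mem (hCT 1) (hQT 0)))
      (mul_mem h2T hDT)
  have hyT : y ∈ T := by
    have h1 : y = (hB H u₀ 1 p * bl (H.Q 0) p p - hB H u₀ 0 p * bl (H.Q 1) p p) /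
        (2 * dt H u₀ p) := by
      rw [eq_div_iff (mul_ne_zero two_ne_zero hDp)]
      unfold dt
      linear_combination hB H u₀ 0 p * hQv 1 - hB H u₀ 1 p * hQv 0
    rw [h1]
    exact div_mem (sub_mem (mul_mem (hBT 1) (hQT 0)) (mul_mem (hBT 0) (hQT 1)))
      (mul_mem h2T hDT)
  refine ⟨a, b, v, α / (c * (α ^ 2 - algebraMap K Ω H.d * β ^ 2)),
    -β / (c * (α ^ 2 - algebraMap K Ω H.d * β ^ 2)), fun m => ?_, ?_⟩
  · rw [hvp, Pi.add_apply, Pi.add_apply, Pi.smul_apply, Pi.smul_apply, smul_eq_mul, smul_eq_mul]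
    exact add_mem (add_mem (hpT m) (mul_mem hxT (hwT m))) (mul_mem hyT (hw'T m))
  · have h1 : v = sm H.S (c * α) (c * β) u := by
      rw [hvd, hu', ← sm_scale]
    rw [h1, sm_sm hH.sq]
    have h2 : α / (c * (α ^ 2 - algebraMap K Ω H.d * β ^ 2)) * (c * α) +
        algebraMap K Ω H.d * (-β / (c * (α ^ 2 - algebraMap K Ω H.d * β ^ 2)) * (c * β)) = 1 := by
      field_simp
      ring
    have h3 : α / (c * (α ^ 2 - algebraMap K Ω H.d * β ^ 2)) * (c * β) +
        -β / (c * (α ^ 2 - algebraMap K Ω H.d * β ^ 2)) * (c * α) = 0 := by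
      field_simp
      ring
    rw [h2, h3]
    unfold sm
    rw [one_smul, zero_smul, add_zero]

end Pool.Agent.GSE2
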