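import Pool.Agent.GSE2.Choice

/-!
# GSE2: a split pencil is rational

`split_rat`: `H` a hermitian pencil over `K`, `d` not a square in `K`, with a split quaternion
algebra. For every common zero `u` over `Ω` of the two forms there are `a`, `b` in `Ω` such that the
class of `u` is rational over `K(a, b)`: `u = α v + β S v` with a vector `v` over `K(a, b)`. (There
is no condition on `u` or on `Ω`.)

`split_gen`: if `K` is generated over `k` by two elements, and the class of `u` generates `Ω` over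
`K`, then `Ω` is generated over `k` by four elements.
-/

set_option autoImplicit false

noncomputable section

namespace Pool.Agent.GSE2

open Matrix Pool.Agent.GSH Pool.Agent.GSQ

variable {K Ω : Type} [Field K] [Field Ω] [Algebra K Ω] {H : Pen K} {u₀ : Fin 6 → K}

/-- The projection from the line, without a condition on `Ω`. -/
theorem line_rat' [CharZero K] (hH : H.IsPen) (hd : NSq K H.d)
    (h₀ : ∀ j, bl (H.Q j) (vK u₀ : Fin 6 → Ω) (vK u₀) = 0) {u : Fin 6 → Ω}
    (hu : ∀ j, bl (H.Q j) u u = 0) (hD : dt H u₀ u ≠ 0) :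
    ∃ (a b : Ω) (v : Fin 6 → Ω) (α β : Ω), (∀ i, v i ∈ IntermediateField.adjoin K {a, b}) ∧
      u = sm H.S α β v := by
  have : CharZero Ω := charZero_of_injective_algebraMap (algebraMap K Ω).injective
  have hu0 : u₀ ≠ 0 := by
    intro h
    apply hD
    have h1 : (vK u₀ : Fin 6 → Ω) = 0 := by
      rw [h]
      funext i
      exact map_zero _
    unfold dt hB hC bl
    rw [h1]
    simp
  obtain ⟨i, k, hΔK⟩ := exists_minor hH.sq hd hu0
  have hw2 : (mK H.S *ᵥ vK u₀ : Fin 6 → Ω) = vK (H.S *ᵥ u₀) := mK_vK _ _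
  have hΔ : (vK u₀ : Fin 6 → Ω) i * (mK H.S *ᵥ vK u₀ : Fin 6 → Ω) k -
      (vK u₀ : Fin 6 → Ω) k * (mK H.S *ᵥ vK u₀ : Fin 6 → Ω) i ≠ 0 := by
    intro h
    apply hΔK
    apply (algebraMap K Ω).injective
    rw [hw2] at h
    rw [map_zero, ← h, map_sub, map_mul, map_mul]
    have h1 : (mK H.S *ᵥ u₀ : Fin 6 → K) = H.S *ᵥ u₀ := by
      have h2 : (mK H.S : Matrix (Fin 6) (Fin 6) K) = H.S := by
        ext a b
        rfl
      rw [h2]
    rw [h1]
    rfl
  set w : Fin 6 → Ω := vK u₀ with hw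
  set w' : Fin 6 → Ω := mK H.S *ᵥ vK u₀ with hw'
  set Δ : Ω := w i * w' k - w k * w' i with hΔd
  -- the projection along the line
  set X : (Fin 6 → Ω) → Ω := fun v => (v i * w' k - v k * w' i) / Δ with hX
  set Y : (Fin 6 → Ω) → Ω := fun v => (w i * v k - w k * v i) / Δ with hY
  set s : (Fin 6 → Ω) → Fin 6 → Ω := fun v => v - X v • w - Y v • w' with hs
  have hsi : ∀ v, s v i = 0 := by
    intro v
    simp only [hs, hX, hY, Pi.sub_apply, Pi.smul_apply, smul_eq_mul]
    field_simp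
    rw [hΔd]
    ring
  have hsk : ∀ v, s v k = 0 := by
    intro v
    simp only [hs, hX, hY, Pi.sub_apply, Pi.smul_apply, smul_eq_mul]
    field_simp
    rw [hΔd]
    ring
  have hadd : ∀ (v v' : Fin 6 → Ω) (α β : Ω), s (α • v + β • v') = α • s v + β • s v' := by
    intro v v' α β
    funext m
    simp only [hs, hX, hY, Pi.sub_apply, Pi.smul_apply, smul_eq_mul, Pi.add_apply]
    field_simp
    ring
  have hv : ∀ v, v = s v + X v • w + Y v • w' := by
    intro v
    simp only [hs]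
    abel
  have hdt : ∀ v, dt H u₀ (s v) = dt H u₀ v := by
    intro v
    conv_rhs => rw [hv v]
    rw [dt_add hH h₀]
  have hdt0 : ∀ v, s v = 0 → dt H u₀ v = 0 := by
    intro v h
    rw [← hdt, h]
    unfold dt hB hC bl
    simp
  have hBs : ∀ j v, hB H u₀ j (s v) = hB H u₀ j v := by
    intro j v
    conv_rhs => rw [hv v]
    obtain ⟨h1, -, h3, -⟩ := line_zero (Ω := Ω) hH h₀ j
    rw [hB_add, hB_add, hB_smul, hB_smul, h1, h3, mul_zero, mul_zero, add_zero, add_zero]
  have hik : i ≠ k := by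
    rintro rfl
    exact hΔ (sub_self _)
  -- the functional `l`
  obtain ⟨l, hl⟩ : ∃ l : Fin 6 → K, (vK l ⬝ᵥ s (mK H.S *ᵥ u)) ^ 2 -
      algebraMap K Ω H.d * (-(vK l ⬝ᵥ s u)) ^ 2 ≠ 0 := by
    by_contra hcon
    push Not at hcon
    set P : MvPolynomial (Fin 6) Ω := lf (s (mK H.S *ᵥ u)) ^ 2 -
      MvPolynomial.C (algebraMap K Ω H.d) * lf (s u) ^ 2 with hP
    have hPe : ∀ y : Fin 6 → Ω, MvPolynomial.eval y P = (y ⬝ᵥ s (mK H.S *ᵥ u)) ^ 2 -
        algebraMap K Ω H.d * (y ⬝ᵥ s u) ^ 2 := by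
      intro y
      rw [hP, map_sub, map_pow, map_mul, map_pow, MvPolynomial.eval_C, eval_lf, eval_lf]
    have hinf : Infinite K := inferInstance
    have h1 : ∀ y : Fin 6 → Ω, (y ⬝ᵥ s (mK H.S *ᵥ u)) ^ 2 =
        algebraMap K Ω H.d * (y ⬝ᵥ s u) ^ 2 := by
      intro y
      have h2 := poly_zero (K := K) (m := (0 : Fin 2 → Fin 6 → K)) (P := P)
        (fun z _ => by rw [hPe, ← hcon z]; ring) (y := y) (fun j => by
          have h3 : (vK ((0 : Fin 2 → Fin 6 → K) j) : Fin 6 → Ω) = 0 := by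
            funext l
            exact map_zero _
          rw [h3, dotProduct_zero])
      rw [hPe] at h2
      exact sub_eq_zero.1 h2
    apply hD
    -- the two functionals of `dt`
    have e1 : ∀ j v, hB H u₀ j v = (mK (H.Q j) *ᵥ w) ⬝ᵥ v := by
      intro j v
      rw [dotProduct_comm]
      rfl
    have e2 : ∀ j, hC H u₀ j u = -((mK (H.Q j) *ᵥ w) ⬝ᵥ s (mK H.S *ᵥ u)) := by
      intro j
      rw [← e1, hBs, hB_S hH, neg_neg]
    have e3 : ∀ j, hB H u₀ j u = (mK (H.Q j) *ᵥ w) ⬝ᵥ s u := by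
      intro j
      rw [← e1, hBs]
    set y₀ := mK (H.Q 0) *ᵥ w with hy₀
    set y₁ := mK (H.Q 1) *ᵥ w with hy₁
    have f0 := h1 y₀
    have f1 := h1 y₁
    have f2 := h1 (y₀ + y₁)
    rw [add_dotProduct, add_dotProduct] at f2
    unfold dt
    rw [e2, e2, e3, e3, ← hy₀, ← hy₁]
    have f3 : (y₀ ⬝ᵥ s (mK H.S *ᵥ u)) * (y₁ ⬝ᵥ s (mK H.S *ᵥ u)) =
        algebraMap K Ω H.d * ((y₀ ⬝ᵥ s u) * (y₁ ⬝ᵥ s u)) := by
      apply mul_left_cancel₀ (two_ne_zero (α := Ω))
      linear_combination f2 - f0 - f1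
    have f4 : ((y₀ ⬝ᵥ s u) * -(y₁ ⬝ᵥ s (mK H.S *ᵥ u)) -
        -(y₀ ⬝ᵥ s (mK H.S *ᵥ u)) * (y₁ ⬝ᵥ s u)) ^ 2 = 0 := by
      linear_combination (y₁ ⬝ᵥ s u) ^ 2 * f0 + (y₀ ⬝ᵥ s u) ^ 2 * f1 -
        2 * ((y₀ ⬝ᵥ s u) * (y₁ ⬝ᵥ s u)) * f3
    exact pow_eq_zero_iff two_ne_zero |>.1 f4
  -- the representative in the hyperplane
  set α := vK l ⬝ᵥ s (mK H.S *ᵥ u) with hα
  set β := -(vK l ⬝ᵥ s u) with hβ
  have hN : α ^ 2 - algebraMap K Ω H.d * β ^ 2 ≠ 0 := hl
  set u' := sm H.S α β u with hu'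
  have hsl : vK l ⬝ᵥ s u' = 0 := by
    rw [hu']
    unfold sm
    rw [hadd, dotProduct_add, dotProduct_smul, dotProduct_smul, smul_eq_mul, smul_eq_mul,
      ← hα, hβ]
    ring
  obtain ⟨m, hmi, hmk, hlm⟩ : ∃ m, m ≠ i ∧ m ≠ k ∧ l m ≠ 0 := by
    by_contra hcon
    push Not at hcon
    have h1 : ∀ v, vK l ⬝ᵥ s v = 0 := by
      intro v
      refine Finset.sum_eq_zero fun m _ => ?_
      by_cases h2 : m = i
      · rw [h2, hsi, mul_zero]
      · by_cases h3 : m = k
        · rw [h3, hsk, mul_zero]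
        · rw [vK, hcon m h2 h3, map_zero, zero_mul]
    apply hN
    rw [hα, hβ, h1, h1]
    ring
  have hlm' : algebraMap K Ω (l m) ≠ 0 := (map_ne_zero _).2 hlm
  have hD' : dt H u₀ u' ≠ 0 := by
    rw [hu', dt_sm hH]
    exact mul_ne_zero hN hD
  obtain ⟨e, he⟩ := exists_three hik hmi hmk
  obtain ⟨t, ht⟩ : ∃ t, s u' (e t) ≠ 0 := by
    by_contra hcon
    push Not at hcon
    refine hD' (hdt0 u' ?_)
    have h1 : ∀ n, n ≠ m → s u' n = 0 := by
      intro n hn
      rcases he n with rfl | rfl | rfl | ⟨t, rfl⟩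
      · exact hsi u'
      · exact hsk u'
      · exact absurd rfl hn
      · exact hcon t
    funext n
    by_cases hn : n = m
    · subst hn
      rw [dotProduct, Finset.sum_eq_single n (fun b _ hb => by rw [h1 b hb, mul_zero])
        fun h => absurd (Finset.mem_univ _) h] at hsl
      exact (mul_eq_zero.1 hsl).resolve_left hlm'
    · exact h1 n hn
  -- scaling
  set c := (s u' (e t))⁻¹ with hc
  have hc0 : c ≠ 0 := inv_ne_zero ht
  obtain ⟨t₁, t₂, htt⟩ := exists_two t
  set a := c * s u' (e t₁) with ha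
  set b := c * s u' (e t₂) with hb
  set T := IntermediateField.adjoin K ({a, b} : Set Ω) with hT
  have haT : a ∈ T := IntermediateField.subset_adjoin K _ (by simp)
  have hbT : b ∈ T := IntermediateField.subset_adjoin K _ (by simp)
  set p : Fin 6 → Ω := c • s u' with hp
  have hpT' : ∀ n, n ≠ m → p n ∈ T := by
    intro n hn
    rw [hp, Pi.smul_apply, smul_eq_mul]
    rcases he n with rfl | rfl | rfl | ⟨t', rfl⟩
    · rw [hsi, mul_zero]
      exact zero_mem _
    · rw [hsk, mul_zero]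
      exact zero_mem _
    · exact absurd rfl hn
    · rcases htt t' with rfl | rfl | rfl
      · rw [hc, inv_mul_cancel₀ ht]
        exact one_mem _
      · exact haT
      · exact hbT
  have hpT : ∀ n, p n ∈ T := by
    intro n
    by_cases hn : n = m
    · subst hn
      have h1 : vK l ⬝ᵥ p = 0 := by
        rw [hp, dotProduct_smul, hsl, smul_zero]
      rw [dotProduct, ← Finset.add_sum_erase _ _ (Finset.mem_univ n)] at h1
      have h2 : p n = -(∑ x ∈ Finset.univ.erase n, vK l x * p x) / algebraMap K Ω (l n) := by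
        rw [eq_div_iff hlm']
        have h3 : algebraMap K Ω (l n) * p n +
            ∑ x ∈ Finset.univ.erase n, vK l x * p x = 0 := h1
        linear_combination h3
      rw [h2]
      exact div_mem (neg_mem (sum_mem fun x hx => mul_mem (T.algebraMap_mem _)
        (hpT' x (Finset.ne_of_mem_erase hx)))) (T.algebraMap_mem _)
    · exact hpT' n hn
  set x := c * X u' with hx
  set y := c * Y u' with hy
  set v := c • u' with hvd
  have hvp : v = p + x • w + y • w' := by
    rw [hvd]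
    conv_lhs => rw [hv u']
    rw [hp, hx, hy, smul_add, smul_add, smul_smul, smul_smul]
  have hwT : ∀ m, w m ∈ T := fun m => mK_mem_vK u₀ m
  have hw'T : ∀ m, w' m ∈ T := fun m => mK_mem H.S hwT m
  have hBT : ∀ j, hB H u₀ j p ∈ T := fun j => bl_mem _ hpT hwT
  have hCT : ∀ j, hC H u₀ j p ∈ T := fun j => bl_mem _ hpT hw'T
  have hQT : ∀ j, bl (H.Q j) p p ∈ T := fun j => bl_mem _ hpT hpT
  have hDp : dt H u₀ p ≠ 0 := by
    have h1 : dt H u₀ p = c ^ 2 * dt H u₀ (s u') := by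
      rw [hp]
      unfold dt
      rw [hB_smul, hB_smul, hC_smul, hC_smul]
      ring
    rw [h1, hdt]
    exact mul_ne_zero (pow_ne_zero 2 hc0) hD'
  have hQv : ∀ j, bl (H.Q j) p p + 2 * x * hB H u₀ j p + 2 * y * hC H u₀ j p = 0 := by
    intro j
    rw [← Q_add hH h₀, ← hw, ← hw', ← hvp, hvd, bl_smul_left, bl_smul_right, hu', hH.Q_sm, hu,
      mul_zero, mul_zero, mul_zero]
  have hDT : dt H u₀ p ∈ T := sub_mem (mul_mem (hBT 0) (hCT 1)) (mul_mem (hCT 0) (hBT 1))
  have h2T : (2 : Ω) ∈ T := by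
    have := T.algebraMap_mem (2 : K)
    rwa [map_ofNat] at this
  have hxT : x ∈ T := by
    have h1 : x = (hC H u₀ 0 p * bl (H.Q 1) p p - hC H u₀ 1 p * bl (H.Q 0) p p) /
        (2 * dt H u₀ p) := by
      rw [eq_div_iff (mul_ne_zero two_ne_zero hDp)]
      unfold dt
      linear_combination hC H u₀ 1 p * hQv 0 - hC H u₀ 0 p * hQv 1
    rw [h1]
    exact div_mem (sub_mem (mul_mem (hCT 0) (hQT 1)) (mul_mem (hCT 1) (hQT 0)))
      (mul_mem h2T hDT)
  have hyT : y ∈ T := by
    have h1 : y = (hB H u₀ 1 p * bl (H.Q 0) p p - hB H u₀ 0 p * bl (H.Q 1) p p) /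
        (2 * dt H u₀ p) := by
      rw [eq_div_iff (mul_ne_zero two_ne_zero hDp)]
      unfold dt
      linear_combination hB H u₀ 0 p * hQv 1 - hB H u₀ 1 p * hQv 0
    rw [h1]
    exact div_mem (sub_mem (mul_mem (hBT 1) (hQT 0)) (mul_mem (hBT 0) (hQT 1)))
      (mul_mem h2T hDT)
  refine ⟨a, b, v, α / (c * (α ^ 2 - algebraMap K Ω H.d * β ^ 2)),
    -β / (c * (α ^ 2 - algebraMap K Ω H.d * β ^ 2)), fun m => ?_, ?_⟩
  · rw [hvp, Pi.add_apply, Pi.add_apply, Pi.smul_apply, Pi.smul_apply, smul_eq_mul, smul_eq_mul]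
    exact add_mem (add_mem (hpT m) (mul_mem hxT (hwT m))) (mul_mem hyT (hw'T m))
  · have h1 : v = sm H.S (c * α) (c * β) u := by
      rw [hvd, hu', ← sm_scale]
    rw [h1, sm_sm hH.sq]
    have h2 : α / (c * (α ^ 2 - algebraMap K Ω H.d * β ^ 2)) * (c * α) +
        algebraMap K Ω H.d * (-β / (c * (α ^ 2 - algebraMap K Ω H.d * β ^ 2)) * (c * β)) = 1 := by
      field_simp
      ring
    have h3 : α / (c * (α ^ 2 - algebraMap K Ω H.d * β ^ 2)) * (c * β) +
        -β / (c * (α ^ 2 - algebraMap K Ω H.d * β ^ 2)) * (c * α) = 0 := by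
      field_simp
      ring
    rw [h2, h3]
    unfold sm
    rw [one_smul, zero_smul, add_zero]

/-- `K ^ 6` has a basis of three vectors over `K(√d)`. -/
theorem exists_L_basis [CharZero K] {M : Type} [Field M] [Algebra K M] (hH : H.IsPen)
    (hd : H.d ≠ 0) (hM : Module.finrank K M = 3) (E : Eig H M) (u : Fin 6 → Ω) :
    ∃ (e : Fin 3 → Fin 6 → K) (X Y : Fin 3 → Ω),
      u = ∑ i, (X i • vK (e i) + Y i • (mK H.S *ᵥ vK (e i))) := by
  classical
  have hfin := fin_of_three hM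
  set B := Module.finBasisOfFinrankEq K M hM with hB
  set e : Fin 3 → Fin 6 → K := fun i => E.vec (B i) 0 with he
  have hSe : ∀ i, H.S *ᵥ e i = E.vec 0 (B i) := by
    intro i
    funext l
    have h1 : (H.S *ᵥ e i) l = ∑ k, H.S l k * Algebra.trace K M (B i * E.v k) := by
      rw [mulVec, dotProduct]
      refine Finset.sum_congr rfl fun k _ => ?_
      have h3 : e i k = Algebra.trace K M (B i * E.v k) := by
        change Algebra.trace K M (B i * E.v k + 0 * (mK H.S *ᵥ E.v) k) = _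
        rw [zero_mul, add_zero]
      rw [h3]
    have h2 : E.vec 0 (B i) l = Algebra.trace K M (B i * (mK H.S *ᵥ E.v) l) := by
      unfold Eig.vec
      rw [zero_mul, zero_add]
    rw [h1, h2, mulVec, dotProduct, Finset.mul_sum, map_sum]
    refine Finset.sum_congr rfl fun k _ => ?_
    have h3 : B i * ((mK H.S : Matrix (Fin 6) (Fin 6) M) l k * E.v k) =
        H.S l k • (B i * E.v k) := by
      rw [Algebra.smul_def]
      change B i * (algebraMap K M (H.S l k) * E.v k) = _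
      ring
    rw [h3, map_smul, smul_eq_mul]
  have hvec : ∀ a b : M, E.vec a b = ∑ i, (B.repr a i • e i + B.repr b i • (H.S *ᵥ e i)) := by
    intro a b
    funext l
    rw [Finset.sum_apply]
    have h1 : ∀ i, (B.repr a i • e i + B.repr b i • (H.S *ᵥ e i)) l =
        Algebra.trace K M (B.repr a i • B i * E.v l + B.repr b i • B i * (mK H.S *ᵥ E.v) l) := by
      intro i
      have h3 : e i l = Algebra.trace K M (B i * E.v l) := by
        change Algebra.trace K M (B i * E.v l + 0 * (mK H.S *ᵥ E.v) l) = _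
        rw [zero_mul, add_zero]
      have h4 : E.vec 0 (B i) l = Algebra.trace K M (B i * (mK H.S *ᵥ E.v) l) := by
        unfold Eig.vec
        rw [zero_mul, zero_add]
      rw [Pi.add_apply, Pi.smul_apply, Pi.smul_apply, hSe, h3, h4, map_add, smul_mul_assoc,
        smul_mul_assoc, map_smul, map_smul]
    rw [Finset.sum_congr rfl fun i _ => h1 i, ← map_sum, Finset.sum_add_distrib,
      ← Finset.sum_mul, ← Finset.sum_mul, B.sum_repr, B.sum_repr]
    rfl
  have hstd : ∀ l, (Pi.single l 1 : Fin 6 → K) =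
      ∑ i, (B.repr (E.aK (Pi.single l 1)) i • e i +
        B.repr (E.bK (Pi.single l 1)) i • (H.S *ᵥ e i)) := by
    intro l
    rw [← hvec, vec_aK (isHer hH) hd hM E]
  refine ⟨e, fun i => ∑ l, u l * algebraMap K Ω (B.repr (E.aK (Pi.single l 1)) i),
    fun i => ∑ l, u l * algebraMap K Ω (B.repr (E.bK (Pi.single l 1)) i), ?_⟩
  funext m
  have h1 : ∀ l, algebraMap K Ω ((Pi.single l 1 : Fin 6 → K) m) =
      ∑ i, (algebraMap K Ω (B.repr (E.aK (Pi.single l 1)) i) * algebraMap K Ω (e i m) +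
        algebraMap K Ω (B.repr (E.bK (Pi.single l 1)) i) *
          algebraMap K Ω ((H.S *ᵥ e i) m)) := by
    intro l
    have h2 := congrArg (algebraMap K Ω) (congrFun (hstd l) m)
    rw [h2, Finset.sum_apply, map_sum]
    refine Finset.sum_congr rfl fun i _ => ?_
    rw [Pi.add_apply, Pi.smul_apply, Pi.smul_apply, smul_eq_mul, smul_eq_mul, map_add, map_mul,
      map_mul]
  have h2 : u m = ∑ l, u l * algebraMap K Ω ((Pi.single l 1 : Fin 6 → K) m) := by
    rw [Finset.sum_eq_single m]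
    · rw [Pi.single_eq_same, map_one, mul_one]
    · intro l _ hl
      rw [Pi.single_eq_of_ne (Ne.symm hl), map_zero, mul_zero]
    · intro h
      exact absurd (Finset.mem_univ m) h
  rw [h2, Finset.sum_apply]
  simp only [h1, Finset.mul_sum]
  rw [Finset.sum_comm]
  refine Finset.sum_congr rfl fun i _ => ?_
  rw [Pi.add_apply, Pi.smul_apply, Pi.smul_apply, smul_eq_mul, smul_eq_mul, mK_vK,
    Finset.sum_mul, Finset.sum_mul, ← Finset.sum_add_distrib]
  refine Finset.sum_congr rfl fun l _ => ?_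
  simp only [vK]
  ring

/-- The class of an eigenvector of `S`. -/
theorem eig_rat [CharZero K] {M : Type} [Field M] [Algebra K M] (hH : H.IsPen)
    (hd : H.d ≠ 0) (hM : Module.finrank K M = 3) (E : Eig H M) {u : Fin 6 → Ω} {δ : Ω}
    (hδ : δ ^ 2 = algebraMap K Ω H.d) (hu : mK H.S *ᵥ u = δ • u) :
    ∃ (a b : Ω) (v : Fin 6 → Ω) (α β : Ω), (∀ i, v i ∈ IntermediateField.adjoin K {a, b}) ∧
      u = sm H.S α β v := by
  have : CharZero Ω := charZero_of_injective_algebraMap (algebraMap K Ω).injective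
  have hδ0 : δ ≠ 0 := by
    rintro rfl
    apply (map_ne_zero (algebraMap K Ω)).2 hd
    rw [← hδ]
    ring
  obtain ⟨e, X, Y, hXY⟩ := exists_L_basis (Ω := Ω) hH hd hM E u
  set l : Fin 3 → Ω := fun i => (X i + δ * Y i) / (2 * δ) with hl
  have h2 : (2 : Ω) ≠ 0 := two_ne_zero
  -- `u = (δ + S) ∑ l i e i`
  have hu1 : u = sm H.S δ 1 (∑ i, l i • vK (e i)) := by
    have h1 : u = (1 / (2 * δ)) • (δ • u + mK H.S *ᵥ u) := by
      rw [hu]
      funext m
      simp only [Pi.smul_apply, Pi.add_apply, smul_eq_mul]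
      field_simp
      ring
    have hS : mK H.S *ᵥ u = ∑ i, (X i • (mK H.S *ᵥ vK (e i)) +
        (algebraMap K Ω H.d * Y i) • vK (e i)) := by
      conv_lhs => rw [hXY]
      rw [mulVec_sum]
      refine Finset.sum_congr rfl fun i _ => ?_
      rw [mulVec_add, mulVec_smul, mulVec_smul, mK_sq hH.sq, smul_smul, mul_comm (Y i)]
    have h3 : ∀ m, u m = ∑ i, (X i * (vK (e i) : Fin 6 → Ω) m +
        Y i * (mK H.S *ᵥ vK (e i) : Fin 6 → Ω) m) := by
      intro m
      have h4 := congrFun hXY m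
      rw [Finset.sum_apply] at h4
      rw [h4]
      rfl
    have h4 : ∀ m, (mK H.S *ᵥ u) m = ∑ i, (X i * (mK H.S *ᵥ vK (e i) : Fin 6 → Ω) m +
        (algebraMap K Ω H.d * Y i) * (vK (e i) : Fin 6 → Ω) m) := by
      intro m
      rw [hS, Finset.sum_apply]
      rfl
    conv_lhs => rw [h1]
    unfold sm
    rw [mulVec_sum]
    funext m
    simp only [Pi.smul_apply, Pi.add_apply, smul_eq_mul, Finset.sum_apply, mulVec_smul, one_mul]
    rw [h3, h4, ← hδ, Finset.mul_sum, Finset.mul_sum, ← Finset.sum_add_distrib, Finset.mul_sum,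
      ← Finset.sum_add_distrib]
    refine Finset.sum_congr rfl fun i _ => ?_
    rw [hl]
    field_simp
    ring
  by_cases h0 : ∀ i, l i = 0
  · refine ⟨0, 0, 0, 0, 0, fun i => zero_mem _, ?_⟩
    rw [hu1]
    unfold sm
    simp only [h0, zero_smul, Finset.sum_const_zero, mulVec_zero, smul_zero, add_zero]
  push Not at h0
  obtain ⟨j, hj⟩ := h0
  obtain ⟨t₁, t₂, ht⟩ := exists_two j
  set T := IntermediateField.adjoin K ({(l j)⁻¹ * l t₁, (l j)⁻¹ * l t₂} : Set Ω) with hT
  have hlT : ∀ i, (l j)⁻¹ * l i ∈ T := by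
    intro i
    rcases ht i with rfl | rfl | rfl
    · rw [inv_mul_cancel₀ hj]
      exact one_mem _
    · exact IntermediateField.subset_adjoin K _ (by simp)
    · exact IntermediateField.subset_adjoin K _ (by simp)
  refine ⟨(l j)⁻¹ * l t₁, (l j)⁻¹ * l t₂, ∑ i, ((l j)⁻¹ * l i) • vK (e i), l j * δ, l j,
    fun m => ?_, ?_⟩
  · rw [Finset.sum_apply]
    exact sum_mem fun i _ => mul_mem (hlT i) (mK_mem_vK (e i) m)
  · have h1 : ∑ i, ((l j)⁻¹ * l i) • (vK (e i) : Fin 6 → Ω) =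
        (l j)⁻¹ • ∑ i, l i • vK (e i) := by
      rw [Finset.smul_sum]
      exact Finset.sum_congr rfl fun i _ => by rw [smul_smul]
    conv_lhs => rw [hu1]
    rw [h1]
    unfold sm
    rw [mulVec_smul, smul_smul, smul_smul, one_smul]
    congr 2
    · field_simp
    · rw [mul_inv_cancel₀ hj, one_smul]

/-- **A split pencil is rational.** -/
theorem split_rat [CharZero K] (hH : H.IsPen) (hd : NSq K H.d) (hS : Split H) {u : Fin 6 → Ω}
    (hu : ∀ j, bl (H.Q j) u u = 0) :
    ∃ (a b : Ω) (v : Fin 6 → Ω) (α β : Ω), (∀ i, v i ∈ IntermediateField.adjoin K {a, b}) ∧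
      u = sm H.S α β v := by
  have hd0 : H.d ≠ 0 := hd.ne
  by_cases hu0 : u = 0
  · refine ⟨0, 0, 0, 0, 0, fun i => zero_mem _, ?_⟩
    rw [hu0]
    unfold sm
    simp
  by_cases hne : ∀ δ : Ω, δ ^ 2 = algebraMap K Ω H.d → mK H.S *ᵥ u ≠ δ • u
  · obtain ⟨u₀, h1, h2⟩ := choice hH hd0 hS hu hu0 hne
    refine line_rat' hH hd (fun j => ?_) hu h2
    rw [bl_vK, h1, map_zero]
  · push Not at hne
    obtain ⟨δ, hδ, h1⟩ := hne
    obtain ⟨M, _, _, hM, E, -⟩ := hS
    exact eig_rat hH hd0 hM E hδ h1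

/-- The field generated by the class of a common zero of a split pencil. -/
theorem split_gen [CharZero K] {k : Type} [Field k] [Algebra k K] [Algebra k Ω]
    [IsScalarTower k K Ω] (hH : H.IsPen) (hd : NSq K H.d) (hS : Split H) {u : Fin 6 → Ω}
    (hu : ∀ j, bl (H.Q j) u u = 0) {c : Fin 2 → K}
    (hc : IntermediateField.adjoin k (Set.range c) = ⊤) :
    ∃ a : Fin 4 → Ω, ∀ T : IntermediateField k Ω, (∀ i, a i ∈ T) →
      (∀ z, algebraMap K Ω z ∈ T) ∧ ∃ (v : Fin 6 → Ω) (α β : Ω), (∀ i, v i ∈ T) ∧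
        u = sm H.S α β v := by
  obtain ⟨a, b, v, α, β, hv, huv⟩ := split_rat hH hd hS hu
  refine ⟨![algebraMap K Ω (c 0), algebraMap K Ω (c 1), a, b], fun T hT => ?_⟩
  have h0 : algebraMap K Ω (c 0) ∈ T := hT 0
  have h1 : algebraMap K Ω (c 1) ∈ T := hT 1
  have h2 : a ∈ T := hT 2
  have h3 : b ∈ T := hT 3
  have hK : ∀ z, algebraMap K Ω z ∈ T := by
    intro z
    have hz : z ∈ IntermediateField.adjoin k (Set.range c) := by
      rw [hc]
      trivial
    have h4 : IntermediateField.adjoin k (Set.range c) ≤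
        T.comap (IsScalarTower.toAlgHom k K Ω) := by
      rw [IntermediateField.adjoin_le_iff]
      rintro _ ⟨i, rfl⟩
      fin_cases i
      · exact h0
      · exact h1
    exact h4 hz
  refine ⟨hK, v, α, β, fun i => ?_, huv⟩
  set T' : IntermediateField K Ω := { T.toSubfield with algebraMap_mem' := hK } with hT'
  have h4 : IntermediateField.adjoin K ({a, b} : Set Ω) ≤ T' := by
    rw [IntermediateField.adjoin_le_iff]
    rintro z hz
    rcases hz with rfl | hz
    · exact h2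
    · rw [Set.mem_singleton_iff.1 hz]
      exact h3
  exact h4 (hv i)

/-- **The field of a split pencil is generated by four elements.** -/
theorem split_top [CharZero K] {k : Type} [Field k] [Algebra k K] [Algebra k Ω]
    [IsScalarTower k K Ω] (hH : H.IsPen) (hd : NSq K H.d) (hS : Split H) {u : Fin 6 → Ω}
    (hu : ∀ j, bl (H.Q j) u u = 0) {c : Fin 2 → K}
    (hc : IntermediateField.adjoin k (Set.range c) = ⊤)
    (htop : ∀ T : IntermediateField k Ω, (∀ z, algebraMap K Ω z ∈ T) →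
      (∃ (v : Fin 6 → Ω) (α β : Ω), (∀ i, v i ∈ T) ∧ u = sm H.S α β v) → T = ⊤) :
    ∃ a : Fin 4 → Ω, IntermediateField.adjoin k (Set.range a) = ⊤ := by
  obtain ⟨a, ha⟩ := split_gen (k := k) hH hd hS hu hc
  obtain ⟨h1, h2⟩ := ha (IntermediateField.adjoin k (Set.range a)) fun i =>
    IntermediateField.subset_adjoin _ _ ⟨i, rfl⟩
  exact ⟨a, htop _ h1 h2⟩

/-- The same, with intermediate fields over `K`. -/
theorem split_top' [CharZero K] {k : Type} [Field k] [Algebra k K] [Algebra k Ω]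
    [IsScalarTower k K Ω] (hH : H.IsPen) (hd : NSq K H.d) (hS : Split H) {u : Fin 6 → Ω}
    (hu : ∀ j, bl (H.Q j) u u = 0) {c : Fin 2 → K}
    (hc : IntermediateField.adjoin k (Set.range c) = ⊤)
    (htop : ∀ T : IntermediateField K Ω,
      (∃ (v : Fin 6 → Ω) (α β : Ω), (∀ i, v i ∈ T) ∧ u = sm H.S α β v) → T = ⊤) :
    ∃ a : Fin 4 → Ω, IntermediateField.adjoin k (Set.range a) = ⊤ := by
  refine split_top hH hd hS hu hc fun T hK hT => ?_
  have h1 := htop { T.toSubfield with algebraMap_mem' := hK } hT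
  rw [eq_top_iff]
  intro z _
  have h2 : z ∈ (⊤ : IntermediateField K Ω) := trivial
  rw [← h1] at h2
  exact h2

end Pool.Agent.GSE2
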